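import Pool.Agent.KS6_39.RB.QI

set_option autoImplicit false

/-!
# The action on lines and pages
-/

namespace Pool.Agent.KS6_39.RB

variable [Par]

/-- The outcome: an action of a group on a system of lines and pages. -/
structure WA (W : Type) [Group W] (T : Set W) where
  Λ : Type
  E : Type
  [aΛ : MulAction W Λ]
  [aE : MulAction W E]
  ne : Nonempty Λ
  ln : E → Λ
  pgL : Λ → Λ → E
  ln_pgL : ∀ m a, a ≠ m → ln (pgL m a) = m
  ln_smul : ∀ (w : W) (e : E), ln (w • e) = w • ln e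
  pgL_smul : ∀ (w : W) (m a : Λ), a ≠ m → w • pgL m a = pgL (w • m) (w • a)
  sepr : ∀ m a b, a ≠ m → b ≠ m → pgL m a ≠ pgL m b → pgL a m = pgL a b
  fiber : ∀ ω, {e | ln e = ω}.ncard = Par.p ∨ {e | ln e = ω}.ncard = Par.q
  pc : E → Λ → E
  pc_self : ∀ e, pc e (ln e) = e
  pc_other : ∀ e ω, ω ≠ ln e → pc e ω = pgL ω (ln e)
  both : ∀ e, ∃ e', pc e' = pc e ∧ {x | ln x = ln e'}.ncard ≠ {x | ln x = ln e}.ncard
  seps : ∀ e e', {ω | pc e ω ≠ pc e' ω}.Finite
  orb : ∃ F : Set E, F.Finite ∧ ∀ e : E, ∃ w : W, w • e ∈ F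
  stab : ∀ ω : Λ, ∃ C : ℕ, ∀ n, {w : W | w ∈ Bl T n ∧ w • ω = ω}.ncard ≤ C * (n + 1)
  nofix : ∀ ω : Λ, ∃ w : W, w • ω ≠ ω
  one : ∀ (K : Type) (χ : W → K), {x | ∃ t ∈ T, χ (x * t) ≠ χ x}.Finite →
    ∃ F : Set W, F.Finite ∧ ∀ x x', x ∉ F → x' ∉ F → χ x = χ x'

section main

variable {W G : Type} [Group W] [Group G] {T : Set W} {S : Set G} (Y : LS G S) (q : QId W G T S)

/-- The modulus. -/
noncomputable def Phi : ℕ → ℕ := (basic Y q).choose

theorem exists_act (w : W) (ω : Y.Λ) : ∃ ω' : Y.Λ,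
    ∀ n' x, q.f (w * x) ∈ nb S (Y.c ω') n' → q.f x ∈ nb S (Y.c ω) (Phi Y q n') := by
  obtain ⟨Z, h1, ⟨ω', h2⟩, -⟩ := (basic Y q).choose_spec w ω
  exact ⟨ω', h1 ω' h2⟩

/-- The action on lines. -/
noncomputable def act (w : W) (ω : Y.Λ) : Y.Λ := (exists_act Y q w ω).choose

variable {Y q}

theorem act_spec (w : W) (ω : Y.Λ) :
    ∀ n' x, q.f (w * x) ∈ nb S (Y.c (act Y q w ω)) n' → q.f x ∈ nb S (Y.c ω) (Phi Y q n') :=
  (exists_act Y q w ω).choose_spec

theorem act_tends (w : W) (ω : Y.Λ) : Tends Y q w ω (act Y q w ω) :=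
  fun n' => ⟨_, act_spec w ω n'⟩

theorem tends_unique {w : W} {ω ω1 ω2 : Y.Λ} (h1 : Tends Y q w ω ω1) (h2 : Tends Y q w ω ω2) :
    ω1 = ω2 := by
  have h3 := act_tends (Y := Y) (q := q) w⁻¹ ω1
  have h4 := h1.comp h3
  rw [inv_mul_cancel] at h4
  have h5 := h4.one_eq
  rw [h5] at h3
  have h6 := h3.comp h2
  rw [mul_inv_cancel] at h6
  exact h6.one_eq.symm

theorem act_eq {w : W} {ω ω' : Y.Λ} (h : Tends Y q w ω ω') : act Y q w ω = ω' :=
  tends_unique (act_tends w ω) h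

theorem act_one (ω : Y.Λ) : act Y q 1 ω = ω := (act_tends (Y := Y) (q := q) 1 ω).one_eq

theorem act_mul (w' w : W) (ω : Y.Λ) : act Y q (w' * w) ω = act Y q w' (act Y q w ω) :=
  act_eq ((act_tends w ω).comp (act_tends w' _))

/-- uniform bound in the other direction -/
theorem act_spec' (w : W) (ω : Y.Λ) :
    ∀ n' x, q.f x ∈ nb S (Y.c ω) n' → q.f (w * x) ∈ nb S (Y.c (act Y q w ω)) (Phi Y q n') := by
  intro n' x hx
  have h := act_spec (Y := Y) (q := q) w⁻¹ (act Y q w ω) n' (w * x)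
  rw [← act_mul, inv_mul_cancel, act_one, inv_mul_cancel_left] at h
  exact h hx

theorem exists_gamma0 (w : W) (ω : Y.Λ) : ∃ γ : G → G,
    Ev Y q ω (fun x => Y.pg ω (q.f x) = γ (Y.pg (act Y q w ω) (q.f (w * x)))) := by
  obtain ⟨Z, h1, -, h3⟩ := (basic Y q).choose_spec w ω
  apply h3
  intro ω'' hω''
  exact (act_eq (fun n' => ⟨_, h1 ω'' hω'' n'⟩)).symm

theorem exists_gamma (w : W) (ω : Y.Λ) : ∃ γ : G → G,
    Ev Y q ω (fun x => Y.pg (act Y q w ω) (q.f (w * x)) = γ (Y.pg ω (q.f x))) := by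
  obtain ⟨γ, hγ⟩ := exists_gamma0 (Y := Y) (q := q) w⁻¹ (act Y q w ω)
  refine ⟨γ, ?_⟩
  have h := (act_tends w ω).ev hγ
  refine h.mono ?_
  intro x hx
  rw [← act_mul, inv_mul_cancel, act_one, inv_mul_cancel_left] at hx
  exact hx

variable (Y q)

/-- The page map. -/
noncomputable def gam (w : W) (ω : Y.Λ) : G → G := (exists_gamma (Y := Y) (q := q) w ω).choose

variable {Y q}

theorem gam_spec (w : W) (ω : Y.Λ) :
    Ev Y q ω (fun x => Y.pg (act Y q w ω) (q.f (w * x)) = gam Y q w ω (Y.pg ω (q.f x))) :=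
  (exists_gamma (Y := Y) (q := q) w ω).choose_spec

variable (Y) in
/-- Pages: pairs of a line and a value of its page function. -/
def Pge : Type := {e : Y.Λ × G // e.2 ∈ Set.range (Y.pg e.1)}

theorem gam_mem (w : W) (e : Pge Y) :
    gam Y q w e.1.1 e.1.2 ∈ Set.range (Y.pg (act Y q w e.1.1)) := by
  obtain ⟨⟨ω, z⟩, g, hg⟩ := e
  simp only at hg ⊢
  obtain ⟨x, h1, h2⟩ := (gam_spec (Y := Y) (q := q) w ω).exists_page g
  rw [← hg, ← h1]
  exact ⟨_, h2⟩

variable (Y q)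

/-- The action on pages. -/
noncomputable def actE (w : W) (e : Pge Y) : Pge Y :=
  ⟨(act Y q w e.1.1, gam Y q w e.1.1 e.1.2), gam_mem w e⟩

variable {Y q}

theorem actE_ev (w : W) (e : Pge Y) : Ev Y q e.1.1 (fun x => Y.pg e.1.1 (q.f x) = e.1.2 →
    Y.pg (act Y q w e.1.1) (q.f (w * x)) = (actE Y q w e).1.2) := by
  refine (gam_spec (Y := Y) (q := q) w e.1.1).mono ?_
  intro x hx h
  rw [hx, h]
  rfl

theorem actE_unique (w : W) (e e' : Pge Y) (h1 : e'.1.1 = act Y q w e.1.1)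
    (h2 : Ev Y q e.1.1 (fun x => Y.pg e.1.1 (q.f x) = e.1.2 →
      Y.pg (act Y q w e.1.1) (q.f (w * x)) = e'.1.2)) : actE Y q w e = e' := by
  obtain ⟨g, hg⟩ := e.2
  obtain ⟨x, h3, h4, h5⟩ := ((actE_ev w e).and h2).exists_page g
  rw [hg] at h3
  apply Subtype.ext
  apply Prod.ext
  · exact h1.symm
  · rw [← h4 h3, ← h5 h3]

theorem actE_one (e : Pge Y) : actE Y q 1 e = e := by
  apply actE_unique
  · rw [act_one]
  · refine ⟨0, fun x _ h => ?_⟩
    rw [one_mul, act_one]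
    exact h

theorem actE_mul (w' w : W) (e : Pge Y) : actE Y q (w' * w) e = actE Y q w' (actE Y q w e) := by
  apply actE_unique
  · show act Y q w' (act Y q w e.1.1) = _
    rw [act_mul]
  · have h1 := actE_ev (q := q) w e
    have h2 := (act_tends w e.1.1).ev (actE_ev (q := q) w' (actE Y q w e))
    refine (h1.and h2).mono ?_
    rintro x ⟨h3, h4⟩ h5
    rw [act_mul, mul_assoc]
    exact h4 (h3 h5)

variable (Y) in
/-- a point of a line -/
noncomputable def pt (ω : Y.Λ) : G := (Y.nonempty ω).choose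

theorem pt_mem (ω : Y.Λ) : pt Y ω ∈ Y.c ω := (Y.nonempty ω).choose_spec

variable (Y) in
/-- The page of `m` containing the line `a`. -/
noncomputable def pgLn (m a : Y.Λ) : Pge Y := ⟨(m, Y.pg m (pt Y a)), ⟨_, rfl⟩⟩

theorem pgLn_eq {m a : Y.Λ} (h : a ≠ m) {g : G} (hg : g ∈ Y.c a) :
    pgLn Y m a = ⟨(m, Y.pg m g), ⟨_, rfl⟩⟩ := by
  apply Subtype.ext
  apply Prod.ext
  · rfl
  · exact Y.cst a m h _ (pt_mem a) _ hg

theorem act_inj {w : W} {a b : Y.Λ} (h : act Y q w a = act Y q w b) : a = b := by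
  have := congrArg (act Y q w⁻¹) h
  rwa [← act_mul, ← act_mul, inv_mul_cancel, act_one, act_one] at this

theorem pgLn_smul (w : W) (m a : Y.Λ) (h : a ≠ m) :
    actE Y q w (pgLn Y m a) = pgLn Y (act Y q w m) (act Y q w a) := by
  -- find a point near `a`, deep with respect to `m`
  have hne : act Y q w a ≠ act Y q w m := fun h' => h (act_inj h')
  set N := Phi Y q q.c with hN
  obtain ⟨n1, hn1⟩ := actE_ev (q := q) w (pgLn Y m a)
  obtain ⟨n2, hn2⟩ := act_tends (Y := Y) (q := q) w m N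
  have hnot : ¬ Y.c a ⊆ nb S (Y.c m) (q.c + (q.c + n1 + n2)) := fun hsub => h (Y.iso _ _ _ hsub)
  rw [Set.not_subset] at hnot
  obtain ⟨y, hy, hyn⟩ := hnot
  obtain ⟨x, hx⟩ := q.q3 y
  have hx' := inv_mem_Bl Y.invS hx
  rw [mul_inv_rev, inv_inv] at hx'
  have hfx : q.f x ∉ nb S (Y.c m) (q.c + n1 + n2) := by
    intro hin
    exact hyn (nb_mul hin hx')
  have hpg : Y.pg m (q.f x) = Y.pg m y :=
    Y.pg_near' (n := q.c) (fun h => hyn (nb_mono (by omega) h)) hx'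
  have e1 := hn1 x (fun h => hfx (nb_mono (by omega) h))
  have e2 : Y.pg (pgLn Y m a).1.1 (q.f x) = (pgLn Y m a).1.2 := by
    show Y.pg m (q.f x) = Y.pg m (pt Y a)
    rw [hpg]
    exact Y.cst a m h _ hy _ (pt_mem a)
  have e3 := e1 e2
  -- the image point
  have hxa : q.f x ∈ nb S (Y.c a) q.c := ⟨_, hx, by rwa [mul_inv_cancel_left]⟩
  obtain ⟨b, hb, hb'⟩ := act_spec' (Y := Y) (q := q) w a q.c x hxa
  have hfar : q.f (w * x) ∉ nb S (Y.c (act Y q w m)) N := by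
    intro hin
    exact hfx (nb_mono (by omega) (hn2 x hin))
  have e4 := Y.pg_near hfar hb
  rw [pgLn_eq hne hb']
  apply Subtype.ext
  apply Prod.ext
  · rfl
  · show (actE Y q w (pgLn Y m a)).1.2 = Y.pg (act Y q w m) (q.f (w * x) * b)
    rw [e4, ← e3]
    rfl

theorem orb_finite : ∃ F : Set (Pge Y), F.Finite ∧ ∀ e, ∃ w : W, actE Y q w e ∈ F := by
  classical
  set N := Phi Y q q.c with hN
  have h1 : {ω : Y.Λ | q.f 1 ∈ nb S (Y.c ω) N}.Finite := by
    have : {ω : Y.Λ | q.f 1 ∈ nb S (Y.c ω) N} ⊆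
        ⋃ b ∈ Bl S N, {ω | q.f 1 * b ∈ Y.c ω} := by
      rintro ω ⟨b, hb, hb'⟩
      simp only [Set.mem_iUnion]
      exact ⟨b, hb, hb'⟩
    exact ((Bl_finite Y.finS N).biUnion (fun b _ => Y.meet _)).subset this
  refine ⟨{e | e.1.1 ∈ {ω : Y.Λ | q.f 1 ∈ nb S (Y.c ω) N}}, ?_, ?_⟩
  · have h2 : (⋃ ω ∈ {ω : Y.Λ | q.f 1 ∈ nb S (Y.c ω) N},
        (fun z => ((ω, z) : Y.Λ × G)) '' Set.range (Y.pg ω)).Finite :=
      h1.biUnion (fun ω _ => (Y.range_finite ω).image _)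
    apply Set.Finite.of_finite_image (f := fun e : Pge Y => e.1)
    · refine h2.subset ?_
      rintro _ ⟨e, he, rfl⟩
      simp only [Set.mem_iUnion]
      exact ⟨e.1.1, he, e.1.2, e.2, rfl⟩
    · exact Subtype.val_injective.injOn
  · intro e
    obtain ⟨x, hx⟩ := q.q3 (pt Y e.1.1)
    refine ⟨x⁻¹, ?_⟩
    have h3 : q.f x ∈ nb S (Y.c e.1.1) q.c := ⟨_, hx, by
      rw [mul_inv_cancel_left]; exact pt_mem _⟩
    have h4 := act_spec' (Y := Y) (q := q) x⁻¹ e.1.1 q.c x h3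
    rw [inv_mul_cancel] at h4
    exact h4

theorem near_pt (ω : Y.Λ) : ∃ x, q.f x ∈ nb S (Y.c ω) q.c := by
  obtain ⟨x, hx⟩ := q.q3 (pt Y ω)
  exact ⟨x, _, hx, by rw [mul_inv_cancel_left]; exact pt_mem _⟩

theorem nofix (ω : Y.Λ) : ∃ w : W, act Y q w ω ≠ ω := by
  by_contra hcon
  push Not at hcon
  obtain ⟨x0, hx0⟩ := near_pt (q := q) ω
  have h1 : ∀ x, q.f x ∈ nb S (Y.c ω) (Phi Y q q.c) := by
    intro x
    have := act_spec' (Y := Y) (q := q) (x * x0⁻¹) ω q.c x0 hx0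
    rwa [hcon, inv_mul_cancel_right] at this
  obtain ⟨x, -, h2⟩ := Ev.exists_page (Y := Y) (q := q) (ω := ω) (P := fun _ => False)
    ⟨_, fun x hx => hx (h1 x)⟩ 1
  exact h2

theorem stab (hT : Subgroup.closure T = ⊤) (ω : Y.Λ) :
    ∃ C, ∀ n, {w : W | w ∈ Bl T n ∧ act Y q w ω = ω}.ncard ≤ C * (n + 1) := by
  obtain ⟨C, hC⟩ := Y.lin
  obtain ⟨x0, hx0⟩ := near_pt (q := q) ω
  obtain ⟨n0, hn0⟩ := exists_mem_Bl q.invT hT x0
  set N := Phi Y q q.c with hN
  set C1 := C * (N + 1) * (Bl S N).ncard with hC1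
  have hB : ((fun b => x0 * b * x0⁻¹) '' Bl T (q.e 0)).Finite := (Bl_finite q.finT _).image _
  refine ⟨C1 * (q.a * (n0 + 1) + q.c + 1) * ((fun b => x0 * b * x0⁻¹) '' Bl T (q.e 0)).ncard, ?_⟩
  intro n
  have hbd := ncard_fiber (P := {w : W | w ∈ Bl T n ∧ act Y q w ω = ω})
    (Q := {p | p ∈ nb S (Y.c ω) N ∧ (q.f 1)⁻¹ * p ∈ Bl S (q.e (n + n0))})
    (fun w => q.f (w * x0)) (finite_inter_ball Y.finS _ _ _) hB ?_ ?_
  · refine hbd.trans ?_
    have h1 := Lin_nb Y.finS (hC ω) N (q.f 1) (q.e (n + n0))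
    rw [← hC1] at h1
    have h2 : q.e (n + n0) + 1 ≤ (q.a * (n0 + 1) + q.c + 1) * (n + 1) := by
      unfold QId.e
      have : n + n0 ≤ (n0 + 1) * (n + 1) := by nlinarith
      have := Nat.mul_le_mul_left q.a this
      nlinarith
    calc _ ≤ (C1 * (q.e (n + n0) + 1)) * _ := Nat.mul_le_mul_right _ h1
      _ ≤ (C1 * ((q.a * (n0 + 1) + q.c + 1) * (n + 1))) * _ :=
          Nat.mul_le_mul_right _ (Nat.mul_le_mul_left _ h2)
      _ = _ := by ring
  · rintro w ⟨hw, hw'⟩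
    refine ⟨?_, ?_⟩
    · have := act_spec' (Y := Y) (q := q) w ω q.c x0 hx0
      rwa [hw'] at this
    · apply q.q1
      rw [inv_one, one_mul]
      exact mul_mem_Bl hw hn0
  · rintro w - w' - heq
    have h0 : (q.f (w * x0))⁻¹ * q.f (w' * x0) ∈ Bl S 0 := by
      rw [heq, inv_mul_cancel]; exact one_mem_Bl _ _
    have h1 := q.q2 _ _ _ h0
    refine ⟨(w * x0)⁻¹ * (w' * x0), h1, ?_⟩
    simp only
    group

theorem line_infinite (ω : Y.Λ) : (Y.c ω).Infinite := by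
  intro hfin
  have hall : ∀ ω' : Y.Λ, ω = ω' := by
    intro ω'
    -- a finite set lies in a neighbourhood
    have hex : ∀ y : G, ∃ n, y ∈ nb S (Y.c ω') n := by
      intro y
      obtain ⟨n, hn⟩ := exists_mem_Bl Y.invS Y.genS (y⁻¹ * pt Y ω')
      exact ⟨n, _, hn, by rw [mul_inv_cancel_left]; exact pt_mem _⟩
    choose N hN using hex
    refine Y.iso ω ω' (hfin.toFinset.sup N) ?_
    intro y hy
    exact nb_mono (Finset.le_sup (f := N) (hfin.mem_toFinset.mpr hy)) (hN y)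
  obtain ⟨ω1, ω2, -, -, h1, h2⟩ := Y.both 1
  rw [← hall ω1] at h1
  rw [← hall ω2] at h2
  exact Par.hne (h1.symm.trans h2)

/-- one-endedness -/
theorem one_end (Y : LS G S) (q : QId W G T S) (K : Type) (χ : W → K)
    (hχ : {x | ∃ t ∈ T, χ (x * t) ≠ χ x}.Finite) :
    ∃ F : Set W, F.Finite ∧ ∀ x x', x ∉ F → x' ∉ F → χ x = χ x' := by
  classical
  set D := {x | ∃ t ∈ T, χ (x * t) ≠ χ x} with hD
  choose s hs using q.q3
  set k := q.e (q.c + 1 + q.c) with hk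
  have hedge : ∀ x, x ∉ D → ∀ t ∈ T, χ (x * t) = χ x := by
    intro x hx t ht
    by_contra h
    exact hx ⟨t, ht, h⟩
  let L : Set G := {g | s g ∈ nb T D k}
  have hnbfin : ∀ m, (nb T D m).Finite := by
    intro m
    have : nb T D m ⊆ Set.image2 (fun a b => a * b⁻¹) D (Bl T m) := by
      rintro x ⟨b, hb, hb'⟩
      exact ⟨x * b, hb', b, hb, by simp⟩
    exact (hχ.image2 _ (Bl_finite q.finT m)).subset this
  have hLfin : L.Finite := by
    have : L ⊆ Set.image2 (fun a b => q.f a * b) (nb T D k) (Bl S q.c) := by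
      intro g hg
      exact ⟨s g, hg, _, hs g, by simp⟩
    exact ((hnbfin k).image2 _ (Bl_finite Y.finS _)).subset this
  have hoff : ∀ g, ∀ x ∈ S, g ∉ L → g * x ∉ L → χ (s (g * x)) = χ (s g) := by
    intro g x hx hg _
    have h1 : (q.f (s g))⁻¹ * q.f (s (g * x)) ∈ Bl S (q.c + 1 + q.c) := by
      have : (q.f (s g))⁻¹ * q.f (s (g * x)) = ((q.f (s g))⁻¹ * g) * x *
        ((q.f (s (g * x)))⁻¹ * (g * x))⁻¹ := by group
      rw [this]
      exact mul_mem_Bl (mul_mem_Bl (hs g) (gen_mem_Bl hx)) (inv_mem_Bl Y.invS (hs _))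
    have h2 := q.q2 _ _ _ h1
    have := const_ball hedge hg _ h2
    rwa [mul_inv_cancel_left] at this
  obtain ⟨R, hR⟩ := Y.color L.ncard
  have hcol := (hR L (Lin_of_finite hLfin) K (fun g => χ (s g)) hoff).1
  have hnbL : (nb S L R).Finite := by
    have : nb S L R ⊆ Set.image2 (fun a b => a * b⁻¹) L (Bl S R) := by
      rintro x ⟨b, hb, hb'⟩
      exact ⟨x * b, hb', b, hb, by simp⟩
    exact (hLfin.image2 _ (Bl_finite Y.finS R)).subset this
  have hcol' := hcol (fun ω hω => line_infinite ω (hnbL.subset hω))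
  refine ⟨{x | q.f x ∈ nb S L R} ∪ nb T D (q.e q.c), ?_, ?_⟩
  · refine Set.Finite.union ?_ (hnbfin _)
    apply Set.Finite.of_finite_fibers q.f
    · exact hnbL.subset (by rintro _ ⟨x, hx, rfl⟩; exact hx)
    · rintro y -
      by_cases hne : ({x | q.f x ∈ nb S L R} ∩ q.f ⁻¹' {y}).Nonempty
      · obtain ⟨x0, -, hx0⟩ := hne
        apply ((Bl_finite q.finT (q.e 0)).image (fun b => x0 * b)).subset
        rintro x ⟨-, hx⟩
        have h0 : (q.f x0)⁻¹ * q.f x ∈ Bl S 0 := by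
          have e1 : q.f x0 = y := hx0
          have e2 : q.f x = y := hx
          rw [e1, e2, inv_mul_cancel]; exact one_mem_Bl _ _
        exact ⟨_, q.q2 _ _ _ h0, by simp⟩
      · rw [Set.not_nonempty_iff_eq_empty] at hne
        rw [hne]; exact Set.finite_empty
  · have key : ∀ x, x ∉ {x | q.f x ∈ nb S L R} ∪ nb T D (q.e q.c) → χ (s (q.f x)) = χ x := by
      intro x hx
      simp only [Set.mem_union, not_or] at hx
      have h1 := q.q2 _ _ _ (hs (q.f x))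
      have h2 := inv_mem_Bl q.invT h1
      rw [mul_inv_rev, inv_inv] at h2
      have := const_ball hedge hx.2 _ h2
      rwa [mul_inv_cancel_left] at this
    intro x x' hx hx'
    rw [← key x hx, ← key x' hx']
    simp only [Set.mem_union, not_or] at hx hx'
    exact hcol' _ _ hx.1 hx'.1

open Classical in
/-- The action associated with a quasi-isometry. -/
noncomputable def theAct (hT : Subgroup.closure T = ⊤) : WA W T where
  Λ := Y.Λ
  E := Pge Y
  aΛ := { smul := act Y q, one_smul := act_one, mul_smul := act_mul }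
  aE := { smul := actE Y q, one_smul := actE_one, mul_smul := actE_mul }
  ne := ⟨(Y.both 1).choose⟩
  ln := fun e => e.1.1
  pgL := pgLn Y
  ln_pgL := fun m a _ => rfl
  ln_smul := fun w e => rfl
  pgL_smul := pgLn_smul
  sepr := by
    intro m a b ham hbm h
    have h1 : Y.pg m (pt Y a) ≠ Y.pg m (pt Y b) := by
      intro h'
      apply h
      apply Subtype.ext
      exact Prod.ext rfl h'
    have h2 := Y.sepr m a b ham hbm _ (pt_mem a) _ (pt_mem b) _ (pt_mem m) h1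
    apply Subtype.ext
    exact Prod.ext rfl h2
  fiber := by
    intro ω
    have h1 : {e : Pge Y | e.1.1 = ω}.ncard = (Set.range (Y.pg ω)).ncard := by
      have h2 : (fun e : Pge Y => e.1.2) '' {e : Pge Y | e.1.1 = ω} = Set.range (Y.pg ω) := by
        ext z
        constructor
        · rintro ⟨e, rfl, rfl⟩
          exact e.2
        · intro hz
          exact ⟨⟨(ω, z), hz⟩, rfl, rfl⟩
      rw [← h2, Set.InjOn.ncard_image]
      intro e he e' he' h
      apply Subtype.ext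
      exact Prod.ext ((he : e.1.1 = ω).trans (he' : e'.1.1 = ω).symm) h
    rw [h1]
    exact Y.val ω
  pc := fun e ω => if ω = e.1.1 then e else pgLn Y ω e.1.1
  pc_self := fun e => if_pos rfl
  pc_other := fun e ω h => if_neg h
  both := by
    intro e
    obtain ⟨g0, hg0⟩ := e.2
    obtain ⟨g, hg, hg'⟩ := Y.on e.1.1 g0
    have hpc : ∀ e' : Pge Y, ∀ g ∈ Y.c e'.1.1, Y.pg e'.1.1 g = e'.1.2 →
        ∀ ω, (if ω = e'.1.1 then e' else pgLn Y ω e'.1.1) = ⟨(ω, Y.pg ω g), ⟨_, rfl⟩⟩ := by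
      intro e' g hg he ω
      by_cases h : ω = e'.1.1
      · rw [if_pos h]
        apply Subtype.ext
        apply Prod.ext
        · exact h.symm
        · show e'.1.2 = Y.pg ω g
          rw [h, he]
      · rw [if_neg h]
        exact pgLn_eq (fun h' => h h'.symm) hg
    have hcard : ∀ ω : Y.Λ, {x : Pge Y | x.1.1 = ω}.ncard = (Set.range (Y.pg ω)).ncard := by
      intro ω
      have h2 : (fun e : Pge Y => e.1.2) '' {e : Pge Y | e.1.1 = ω} = Set.range (Y.pg ω) := by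
        ext z
        constructor
        · rintro ⟨e, rfl, rfl⟩
          exact e.2
        · intro hz
          exact ⟨⟨(ω, z), hz⟩, rfl, rfl⟩
      rw [← h2, Set.InjOn.ncard_image]
      intro e he e' he' h
      apply Subtype.ext
      exact Prod.ext ((he : e.1.1 = ω).trans (he' : e'.1.1 = ω).symm) h
    obtain ⟨ω3, ω5, m3, m5, c3, c5⟩ := Y.both g
    rcases Y.val e.1.1 with hv | hv
    · refine ⟨⟨(ω5, Y.pg ω5 g), ⟨_, rfl⟩⟩, ?_, ?_⟩
      · funext ω
        rw [hpc ⟨(ω5, Y.pg ω5 g), ⟨_, rfl⟩⟩ g m5 rfl ω, hpc e g hg (by rw [hg', hg0]) ω]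
      · rw [hcard, hcard, hv]
        show (Set.range (Y.pg ω5)).ncard ≠ Par.p
        rw [c5]; exact Par.hne.symm
    · refine ⟨⟨(ω3, Y.pg ω3 g), ⟨_, rfl⟩⟩, ?_, ?_⟩
      · funext ω
        rw [hpc ⟨(ω3, Y.pg ω3 g), ⟨_, rfl⟩⟩ g m3 rfl ω, hpc e g hg (by rw [hg', hg0]) ω]
      · rw [hcard, hcard, hv]
        show (Set.range (Y.pg ω3)).ncard ≠ Par.q
        rw [c3]; exact Par.hne
  seps := by
    have hpc : ∀ e' : Pge Y, ∃ g, ∀ ω, (if ω = e'.1.1 then e' else pgLn Y ω e'.1.1) =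
        (⟨(ω, Y.pg ω g), ⟨_, rfl⟩⟩ : Pge Y) := by
      intro e'
      obtain ⟨g0, hg0⟩ := e'.2
      obtain ⟨g, hg, hg'⟩ := Y.on e'.1.1 g0
      refine ⟨g, ?_⟩
      intro ω
      by_cases h : ω = e'.1.1
      · rw [if_pos h]
        apply Subtype.ext
        apply Prod.ext
        · exact h.symm
        · show e'.1.2 = Y.pg ω g
          rw [h, hg', hg0]
      · rw [if_neg h]
        exact pgLn_eq (fun h' => h h'.symm) hg
    intro e e'
    obtain ⟨g, hg⟩ := hpc e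
    obtain ⟨g', hg'⟩ := hpc e'
    refine (Y.seps g g').subset ?_
    intro ω hω
    rw [Set.mem_ofPred_eq] at hω ⊢
    rw [hg, hg'] at hω
    intro h
    apply hω
    apply Subtype.ext
    exact Prod.ext rfl h
  orb := orb_finite
  stab := stab hT
  nofix := nofix
  one := one_end Y q

end main

end Pool.Agent.KS6_39.RB
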