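import Pool.Agent.KS6_39.RB.Trans

set_option autoImplicit false

/-!
# Replacing a vertex by a clique

A graph product with vertex groups `I v → C v` is the graph product over the graph in which every
vertex `v` is replaced by a clique with vertex set `I v`, with vertex groups `C v`.
-/

namespace Pool.Agent.KS6_39.RB

open GP

variable {V : Type}

/-- Every vertex `v` is replaced by a clique with vertex set `I v`. -/
def blowGraph (Γ : SimpleGraph V) (I : V → Type) : SimpleGraph (Σ v, I v) where
  Adj p q := p ≠ q ∧ (p.1 = q.1 ∨ Γ.Adj p.1 q.1)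
  symm := ⟨by
    rintro p q ⟨h1, h2 | h2⟩
    · exact ⟨h1.symm, Or.inl h2.symm⟩
    · exact ⟨h1.symm, Or.inr h2.symm⟩⟩
  loopless := ⟨fun p h => h.1 rfl⟩

variable (Γ : SimpleGraph V) (I : V → Type) [∀ v, Fintype (I v)] [∀ v, DecidableEq (I v)]
  (C : V → Type) [∀ v, Group (C v)]

/-- the vertex groups of the original graph -/
abbrev PA : V → Type := fun v => I v → C v

/-- the vertex groups of the clique graph -/
abbrev PB : (Σ v, I v) → Type := fun p => C p.1

/-- vertex elements of the original graph -/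
abbrev ofP (v : V) : PA I C v →* GraphProd Γ (PA I C) := of (Γ := Γ) (A := PA I C) v

/-- vertex elements of the clique graph -/
abbrev ofB (p : Σ v, I v) : PB I C p →* GraphProd (blowGraph Γ I) (PB I C) :=
  of (Γ := blowGraph Γ I) (A := PB I C) p

/-- from the clique graph -/
def blowTo : GraphProd (blowGraph Γ I) (PB I C) →* GraphProd Γ (PA I C) :=
  lift (Γ := blowGraph Γ I) (A := PB I C)
    (fun p => (ofP Γ I C p.1).comp (MonoidHom.mulSingle (fun _ : I p.1 => C p.1) p.2)) (by
    rintro ⟨u, i⟩ ⟨v, j⟩ ⟨h1, h2⟩ x y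
    show ofP Γ I C u (Pi.mulSingle i x) * ofP Γ I C v (Pi.mulSingle j y) =
      ofP Γ I C v (Pi.mulSingle j y) * ofP Γ I C u (Pi.mulSingle i x)
    by_cases huv : u = v
    · subst huv
      have hij : i ≠ j := by
        rintro rfl
        exact h1 rfl
      rw [← map_mul, ← map_mul]
      congr 1
      exact (Pi.mulSingle_commute (f := fun _ : I u => C u) hij x y)
    · exact of_comm (Γ := Γ) (A := PA I C) (h2.resolve_left huv) _ _)

/-- the vertex groups in the clique graph -/
def cliq (v : V) : PA I C v →* GraphProd (blowGraph Γ I) (PB I C) :=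
  MonoidHom.noncommPiCoprod
      (N := fun _ : I v => C v) (fun i : I v => ofB Γ I C ⟨v, i⟩) (by
        intro i j hij x y
        exact of_comm (Γ := blowGraph Γ I) (A := PB I C) (u := ⟨v, i⟩) (v := ⟨v, j⟩)
          ⟨fun h => hij (by simpa using h), Or.inl rfl⟩ x y)

/-- to the clique graph -/
def blowFrom : GraphProd Γ (PA I C) →* GraphProd (blowGraph Γ I) (PB I C) :=
  lift (Γ := Γ) (A := PA I C) (cliq Γ I C) (by
    intro u v h x y
    have hne : u ≠ v := fun e => Γ.loopless.irrefl v (e ▸ h)
    show Commute (cliq Γ I C u x) (cliq Γ I C v y)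
    apply MonoidHom.commute_noncommPiCoprod
    intro j z
    apply Commute.symm
    apply MonoidHom.commute_noncommPiCoprod
    intro i w
    apply Commute.symm
    exact of_comm (Γ := blowGraph Γ I) (A := PB I C) (u := ⟨u, i⟩) (v := ⟨v, j⟩)
      ⟨fun h => hne (congrArg Sigma.fst h), Or.inr h⟩ w z)

theorem blowFrom_single (v : V) (i : I v) (x : C v) :
    blowFrom Γ I C (ofP Γ I C v (Pi.mulSingle i x)) = ofB Γ I C ⟨v, i⟩ x := by
  unfold blowFrom
  rw [lift_of]
  exact MonoidHom.noncommPiCoprod_mulSingle (N := fun _ : I v => C v)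
    (fun i : I v => ofB Γ I C ⟨v, i⟩) i x

theorem blowTo_of (p : Σ v, I v) (x : C p.1) :
    blowTo Γ I C (ofB Γ I C p x) = ofP Γ I C p.1 (Pi.mulSingle p.2 x) := by
  unfold blowTo
  rw [lift_of]
  rfl

/-- The isomorphism. -/
def blowEquiv : GraphProd (blowGraph Γ I) (PB I C) ≃* GraphProd Γ (PA I C) :=
  MonoidHom.toMulEquiv (blowTo Γ I C) (blowFrom Γ I C) (by
    apply hom_ext
    rintro ⟨v, i⟩ x
    show blowFrom Γ I C (blowTo Γ I C (ofB Γ I C ⟨v, i⟩ x)) = ofB Γ I C ⟨v, i⟩ x
    rw [blowTo_of, blowFrom_single]) (by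
    apply hom_ext
    intro v f
    have key : ((blowTo Γ I C).comp (blowFrom Γ I C)).comp (ofP Γ I C v) = ofP Γ I C v := by
      apply MonoidHom.pi_ext
      intro i x
      show blowTo Γ I C (blowFrom Γ I C (ofP Γ I C v (Pi.mulSingle i x))) = _
      rw [blowFrom_single, blowTo_of]
    exact DFunLike.congr_fun key f)

end Pool.Agent.KS6_39.RB
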