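import Pool.Agent.KS6_39.RB.Met

set_option autoImplicit false

/-!
# The colouring argument

`L` is a subset of a graph product which grows linearly, and `χ` is a function which is constant
across all edges with both ends off `L`.  Large product boxes give a colour to every element.
-/

namespace Pool.Agent.KS6_39.RB

namespace GP

variable {V : Type} {Γ : SimpleGraph V} {A : V → Type} [∀ v, Group (A v)]

/-- The `Y`-row through `g` of size `r` avoids `L`. -/
def Good (L : Set (GraphProd Γ A)) (Y : Set V) (r : ℕ) (g : GraphProd Γ A) : Prop :=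
  ∀ b ∈ Bl (gens Y) r, g * b ∉ L

/-- `χ` is constant across edges with both ends off `L`. -/
def OffConst {K : Type*} (L : Set (GraphProd Γ A)) (χ : GraphProd Γ A → K) : Prop :=
  ∀ g (v : V) (x : A v), g ∉ L → g * of v x ∉ L → χ (g * of v x) = χ g

theorem good_color {K : Type*} {L : Set (GraphProd Γ A)} {χ : GraphProd Γ A → K}
    (hχ : OffConst L χ) {Y : Set V} {r : ℕ} {g : GraphProd Γ A} (hg : Good L Y r g) :
    ∀ b ∈ Bl (gens Y) r, χ (g * b) = χ g := by
  apply const_on_ball (s := L)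
  · rintro g _ ⟨v, -, x, rfl⟩ h1 h2
    exact hχ g v x h1 h2
  · exact hg

theorem adj_disjoint {X Y : Set V} (hXY : ∀ u ∈ X, ∀ v ∈ Y, Γ.Adj u v) {g : GraphProd Γ A}
    (hX : g ∈ (sub X : Subgroup (GraphProd Γ A))) (hY : g ∈ (sub Y : Subgroup (GraphProd Γ A))) :
    g = 1 := by
  have h := sub_inter hX hY
  have h0 : X ∩ Y = ∅ := by
    ext v
    constructor
    · rintro ⟨h1, h2⟩
      exact (Γ.loopless.irrefl v (hXY v h1 v h2)).elim
    · intro h; exact h.elim
  rw [h0, sub_empty] at h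
  exact Subgroup.mem_bot.mp h

/-- Among many rows one is good. -/
theorem exists_good_row {L : Set (GraphProd Γ A)} {C r : ℕ} (hfin : (gens Set.univ : Set (GraphProd Γ A)).Finite)
    (hL : Lin (gens Set.univ) C L) {X Y : Set V} (hXY : ∀ u ∈ X, ∀ v ∈ Y, Γ.Adj u v)
    (g : GraphProd Γ A) {U : Set (GraphProd Γ A)} (hU : U ⊆ Bl (gens X) r)
    (hcard : C * (2 * r + 1) < U.ncard) : ∃ a ∈ U, Good L Y r (g * a) := by
  classical
  by_contra hcon
  have hcon' : ∀ a ∈ U, ∃ b ∈ Bl (gens Y : Set (GraphProd Γ A)) r, g * a * b ∈ L := by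
    intro a ha
    by_contra h
    apply hcon
    refine ⟨a, ha, ?_⟩
    intro b hb hL'
    exact h ⟨b, hb, hL'⟩
  choose! f hf1 hf2 using hcon'
  have hinj : Set.InjOn (fun a => g * a * f a) U := by
    intro a ha a' ha' h
    have h1 : a * f a = a' * f a' := by
      simpa [mul_assoc] using h
    have h2 : a'⁻¹ * a = f a' * (f a)⁻¹ := by
      rw [eq_mul_inv_iff_mul_eq, mul_assoc, h1]; group
    have h3 : a'⁻¹ * a ∈ (sub X : Subgroup (GraphProd Γ A)) :=
      mul_mem (inv_mem (Bl_gens_sub X r (hU ha'))) (Bl_gens_sub X r (hU ha))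
    have h4 : a'⁻¹ * a ∈ (sub Y : Subgroup (GraphProd Γ A)) := by
      rw [h2]
      exact mul_mem (Bl_gens_sub Y r (hf1 a' ha')) (inv_mem (Bl_gens_sub Y r (hf1 a ha)))
    have h5 := adj_disjoint hXY h3 h4
    exact (inv_mul_eq_one.mp h5).symm
  have himg : (fun a => g * a * f a) '' U ⊆ {p | p ∈ L ∧ g⁻¹ * p ∈ Bl (gens Set.univ) (2 * r)} := by
    rintro _ ⟨a, ha, rfl⟩
    refine ⟨hf2 a ha, ?_⟩
    have : g⁻¹ * (g * a * f a) = a * f a := by group
    simp only [this]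
    rw [two_mul]
    exact mul_mem_Bl (Bl_mono_set (gens_mono (Set.subset_univ X)) r (hU ha))
      (Bl_mono_set (gens_mono (Set.subset_univ Y)) r (hf1 a ha))
  have h1 : U.ncard ≤ C * (2 * r + 1) := by
    rw [← hinj.ncard_image]
    exact (Set.ncard_le_ncard himg (finite_inter_ball hfin L g _)).trans (hL g (2 * r))
  omega

/-- `κ` is the colour of all good rows and columns of the box at `g`. -/
def IsCol {K : Type*} (L : Set (GraphProd Γ A)) (χ : GraphProd Γ A → K) (X Y : Set V) (r : ℕ)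
    (g : GraphProd Γ A) (κ : K) : Prop :=
  (∀ a ∈ Bl (gens X) r, Good L Y r (g * a) → χ (g * a) = κ) ∧
  (∀ b ∈ Bl (gens Y) r, Good L X r (g * b) → χ (g * b) = κ)

theorem IsCol.swap {K : Type*} {L : Set (GraphProd Γ A)} {χ : GraphProd Γ A → K} {X Y : Set V}
    {r : ℕ} {g : GraphProd Γ A} {κ : K} (h : IsCol L χ X Y r g κ) : IsCol L χ Y X r g κ :=
  ⟨h.2, h.1⟩

/-- good rows and good columns have the same colour -/
theorem row_eq_col {K : Type*} {L : Set (GraphProd Γ A)} {χ : GraphProd Γ A → K}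
    (hχ : OffConst L χ) {X Y : Set V} (hXY : ∀ u ∈ X, ∀ v ∈ Y, Γ.Adj u v) {r : ℕ}
    {g a b : GraphProd Γ A} (ha : a ∈ Bl (gens X) r) (hb : b ∈ Bl (gens Y) r)
    (hga : Good L Y r (g * a)) (hgb : Good L X r (g * b)) : χ (g * a) = χ (g * b) := by
  rw [← good_color hχ hga b hb, ← good_color hχ hgb a ha, mul_assoc, mul_assoc,
    sub_comm hXY (Bl_gens_sub X r ha) (Bl_gens_sub Y r hb)]

theorem exists_isCol {K : Type*} {L : Set (GraphProd Γ A)} {χ : GraphProd Γ A → K}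
    (hχ : OffConst L χ) {C r : ℕ} (hfin : (gens Set.univ : Set (GraphProd Γ A)).Finite)
    (hL : Lin (gens Set.univ) C L) {X Y : Set V} (hXY : ∀ u ∈ X, ∀ v ∈ Y, Γ.Adj u v)
    (hX : C * (2 * r + 1) < (Bl (gens X : Set (GraphProd Γ A)) r).ncard)
    (hY : C * (2 * r + 1) < (Bl (gens Y : Set (GraphProd Γ A)) r).ncard)
    (g : GraphProd Γ A) : ∃ κ, IsCol L χ X Y r g κ := by
  obtain ⟨a0, ha0, hga0⟩ := exists_good_row hfin hL hXY g (U := Bl (gens X) r) subset_rfl hX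
  obtain ⟨b0, hb0, hgb0⟩ := exists_good_row hfin hL (fun u hu v hv => (hXY v hv u hu).symm) g
    (U := Bl (gens Y) r) subset_rfl hY
  refine ⟨χ (g * a0), ?_, ?_⟩
  · intro a ha hga
    rw [row_eq_col hχ hXY ha hb0 hga hgb0, row_eq_col hχ hXY ha0 hb0 hga0 hgb0]
  · intro b hb hgb
    rw [← row_eq_col hχ hXY ha0 hb hga0 hgb]

/-- shifting in the `Y` direction -/
theorem isCol_shift {K : Type*} {L : Set (GraphProd Γ A)} {χ : GraphProd Γ A → K}
    {C k : ℕ} (hfin : (gens Set.univ : Set (GraphProd Γ A)).Finite)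
    (hL : Lin (gens Set.univ) C L) {X Y : Set V} (hXY : ∀ u ∈ X, ∀ v ∈ Y, Γ.Adj u v)
    (hY : C * (2 * (k + 1) + 1) < (Bl (gens Y : Set (GraphProd Γ A)) k).ncard)
    {g : GraphProd Γ A} {v : V} (hv : v ∈ Y) (x : A v) {κ κ' : K}
    (h : IsCol L χ X Y (k + 1) g κ) (h' : IsCol L χ X Y (k + 1) (g * of v x) κ') : κ = κ' := by
  have hU : (fun b => of v x * b) '' (Bl (gens Y : Set (GraphProd Γ A)) k) ⊆
      Bl (gens Y : Set (GraphProd Γ A)) (k + 1) := by
    rintro _ ⟨b, hb, rfl⟩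
    rw [add_comm]
    exact mul_mem_Bl (gen_mem_Bl ⟨v, hv, x, rfl⟩) hb
  have hc : ((fun b => of v x * b) '' (Bl (gens Y : Set (GraphProd Γ A)) k)).ncard =
      (Bl (gens Y : Set (GraphProd Γ A)) k).ncard :=
    Set.ncard_image_of_injective _ (mul_right_injective _)
  obtain ⟨_, ⟨b, hb, rfl⟩, hgb⟩ := exists_good_row (r := k + 1) hfin hL
    (fun u hu v hv => (hXY v hv u hu).symm) g hU (by rw [hc]; exact hY)
  have e1 := h.2 _ (hU ⟨b, hb, rfl⟩) hgb
  have e2 := h'.2 b (Bl_mono (Nat.le_succ k) hb) (by rw [mul_assoc]; exact hgb)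
  rw [← e1, ← e2, mul_assoc]

/-- **The colouring theorem.** -/
theorem exists_color {K : Type*} {X X0 Y Y0 : Set V} (hX0 : X0 ⊆ X) (hY0 : Y0 ⊆ Y)
    (h1 : ∀ u ∈ X0, ∀ v ∈ Y, Γ.Adj u v) (h2 : ∀ u ∈ X, ∀ v ∈ Y0, Γ.Adj u v)
    {C k : ℕ} (hfin : (gens Set.univ : Set (GraphProd Γ A)).Finite)
    (hX : C * (2 * (k + 1) + 1) < (Bl (gens X0 : Set (GraphProd Γ A)) k).ncard)
    (hY : C * (2 * (k + 1) + 1) < (Bl (gens Y0 : Set (GraphProd Γ A)) k).ncard)
    {L : Set (GraphProd Γ A)} (hL : Lin (gens Set.univ) C L) {χ : GraphProd Γ A → K}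
    (hχ : OffConst L χ) :
    ∃ c : GraphProd Γ A → K,
      (∀ g, (∀ b ∈ Bl (gens Set.univ) (2 * (k + 1)), g * b ∉ L) → c g = χ g) ∧
      (∀ g (v : V) (x : A v), v ∈ X ∪ Y → c (g * of v x) = c g) := by
  have hle : ∀ {T T' : Set V}, T ⊆ T' → ∀ {m n : ℕ}, m ≤ n →
      (Bl (gens T : Set (GraphProd Γ A)) m).ncard ≤ (Bl (gens T' : Set (GraphProd Γ A)) n).ncard := by
    intro T T' hT m n hmn
    exact Set.ncard_le_ncard ((Bl_mono_set (gens_mono hT) m).trans (Bl_mono hmn))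
      (Bl_finite (hfin.subset (gens_mono (Set.subset_univ T'))) n)
  have ex1 : ∀ g, ∃ κ, IsCol L χ X0 Y (k + 1) g κ := fun g =>
    exists_isCol hχ hfin hL h1 (lt_of_lt_of_le hX (hle subset_rfl (Nat.le_succ k)))
      (lt_of_lt_of_le hY (hle hY0 (Nat.le_succ k))) g
  have ex2 : ∀ g, ∃ κ, IsCol L χ X Y0 (k + 1) g κ := fun g =>
    exists_isCol hχ hfin hL h2 (lt_of_lt_of_le hX (hle hX0 (Nat.le_succ k)))
      (lt_of_lt_of_le hY (hle subset_rfl (Nat.le_succ k))) g
  have cmp : ∀ g κ κ', IsCol L χ X0 Y (k + 1) g κ → IsCol L χ X Y0 (k + 1) g κ' → κ = κ' := by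
    intro g κ κ' e1 e2
    obtain ⟨a, ha, hga⟩ := exists_good_row (r := k + 1) hfin hL h1 g
      (U := Bl (gens X0) (k + 1)) subset_rfl (lt_of_lt_of_le hX (hle subset_rfl (Nat.le_succ k)))
    rw [← e1.1 a ha hga, ← e2.1 a (Bl_mono_set (gens_mono hX0) _ ha)
      (fun b hb => hga b (Bl_mono_set (gens_mono hY0) _ hb))]
  choose c hc using ex1
  choose c' hc' using ex2
  have hcc : ∀ g, c g = c' g := fun g => cmp g _ _ (hc g) (hc' g)
  refine ⟨c, ?_, ?_⟩
  · intro g hg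
    have hgood : Good L Y (k + 1) (g * 1) := by
      intro b hb
      rw [mul_one]
      exact hg b (Bl_mono (by omega) (Bl_mono_set (gens_mono (Set.subset_univ Y)) _ hb))
    have := (hc g).1 1 (one_mem_Bl _ _) hgood
    rw [← this, mul_one]
  · intro g v x hv
    rcases hv with hv | hv
    · rw [hcc, hcc]
      exact (isCol_shift hfin hL (fun u hu v hv => (h2 v hv u hu).symm)
        (lt_of_lt_of_le hX (hle hX0 le_rfl)) hv x (hc' g).swap (hc' (g * of v x)).swap).symm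
    · exact (isCol_shift hfin hL h1 (lt_of_lt_of_le hY (hle hY0 le_rfl)) hv x (hc g)
        (hc (g * of v x))).symm

end GP

end Pool.Agent.KS6_39.RB
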