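import Pool.Agent.KS6_39.RB.Cyc

set_option autoImplicit false

/-!
# Right-angled Coxeter groups have no odd torsion
-/

namespace Pool.Agent.KS6_39.RB

open Multiplicative GP CG

/-- no odd torsion -/
def NT (H : Type*) [Group H] : Prop := ∀ (h : H) (q : ℕ), Odd q → h ^ q = 1 → h = 1

theorem NT_freeGroup (X : Type*) : NT (FreeGroup X) := by
  intro h q hq hh
  have hq0 : q ≠ 0 := by rintro rfl; simp at hq
  exact (pow_eq_one_iff_left hq0).mp hh

theorem NT_semidirect {N Q : Type*} [Group N] [Group Q] {φ : Q →* MulAut N} (hN : NT N)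
    (hQ : NT Q) : NT (N ⋊[φ] Q) := by
  intro h q hq hh
  have h1 : h.right = 1 := by
    apply hQ _ q hq
    have := congrArg (SemidirectProduct.rightHom) hh
    rw [map_pow, map_one] at this
    exact this
  have h2 : h = SemidirectProduct.inl h.left := by
    apply SemidirectProduct.ext
    · simp
    · simpa using h1
  have h3 : h.left = 1 := by
    apply hN _ q hq
    rw [h2, ← map_pow] at hh
    apply SemidirectProduct.inl_injective (φ := φ)
    rw [hh, map_one]
  rw [h2, h3, map_one]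

theorem NT_inj {H K : Type*} [Group H] [Group K] (f : H →* K) (hf : Function.Injective f)
    (hK : NT K) : NT H := by
  intro h q hq hh
  apply hf
  rw [map_one]
  apply hK _ q hq
  rw [← map_pow, hh, map_one]

theorem NT_two : NT (Multiplicative (ZMod 2)) := by
  rintro h q ⟨m, rfl⟩ hh
  rw [pow_succ, pow_mul] at hh
  have key : ∀ h : Multiplicative (ZMod 2), h ^ 2 = 1 := by decide
  rw [key h, one_pow, one_mul] at hh
  exact hh

/-- The free product of copies of `Z/2`. -/
abbrev FP2 (Ω : Type) : Type := CG (⊥ : SimpleGraph Ω) (fun _ => 2)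

theorem gsq {Ω : Type} (Δ : SimpleGraph Ω) (v : Ω) :
    gen Δ (fun _ => 2) v * gen Δ (fun _ => 2) v = 1 := gen_mul_self (n := fun _ => 2) rfl

theorem bot_not_adj {Ω : Type} {u v : Ω} (h : (⊥ : SimpleGraph Ω).Adj u v) : False := h

/-- The inverting automorphism of a free group. -/
def invAut (Ω : Type) : MulAut (FreeGroup Ω) :=
  { toFun := FreeGroup.lift (fun κ => (FreeGroup.of κ)⁻¹)
    invFun := FreeGroup.lift (fun κ => (FreeGroup.of κ)⁻¹)
    left_inv := by
      intro x
      have : ((FreeGroup.lift (fun κ : Ω => (FreeGroup.of κ)⁻¹)).comp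
        (FreeGroup.lift (fun κ : Ω => (FreeGroup.of κ)⁻¹))) = MonoidHom.id _ := by
        ext κ; simp
      exact DFunLike.congr_fun this x
    right_inv := by
      intro x
      have : ((FreeGroup.lift (fun κ : Ω => (FreeGroup.of κ)⁻¹)).comp
        (FreeGroup.lift (fun κ : Ω => (FreeGroup.of κ)⁻¹))) = MonoidHom.id _ := by
        ext κ; simp
      exact DFunLike.congr_fun this x
    map_mul' := map_mul _ }

theorem invAut_of {Ω : Type} (κ : Ω) : invAut Ω (FreeGroup.of κ) = (FreeGroup.of κ)⁻¹ := by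
  show FreeGroup.lift (fun κ => (FreeGroup.of κ)⁻¹) (FreeGroup.of κ) = _
  simp

theorem invAut_sq (Ω : Type) : invAut Ω ^ 2 = 1 := by
  rw [pow_two]
  ext x
  exact (invAut Ω).left_inv x

/-- The action of `Z/2`. -/
def sgn (Ω : Type) : Multiplicative (ZMod 2) →* MulAut (FreeGroup Ω) :=
  cycHom 2 (invAut Ω) (invAut_sq Ω)

theorem sgn_one (Ω : Type) : sgn Ω (ofAdd (1 : ZMod 2)) = invAut Ω := cycHom_one 2 _ _

/-- Embedding of the free product. -/
def alpha (Ω : Type) : FP2 Ω →* (FreeGroup Ω) ⋊[sgn Ω] (Multiplicative (ZMod 2)) :=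
  liftC (fun κ => ⟨FreeGroup.of κ, ofAdd (1 : ZMod 2)⟩) (by
    intro κ
    rw [pow_two]
    apply SemidirectProduct.ext
    · rw [SemidirectProduct.mul_left]
      simp only
      rw [sgn_one, invAut_of, mul_inv_cancel]
      rfl
    · show (ofAdd (1 : ZMod 2)) * ofAdd (1 : ZMod 2) = 1
      decide) (by
    intro u v h
    exact (bot_not_adj h).elim)

/-- The left inverse. -/
def beta (Ω : Type) (κ0 : Ω) : (FreeGroup Ω) ⋊[sgn Ω] (Multiplicative (ZMod 2)) →* FP2 Ω :=
  SemidirectProduct.lift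
    (FreeGroup.lift (fun κ => gen ⊥ (fun _ => 2) κ * gen ⊥ (fun _ => 2) κ0))
    (cycHom 2 (gen ⊥ (fun _ => 2) κ0) (by rw [pow_two]; exact gen_mul_self rfl)) (by
    intro g
    have h1 : g = 1 ∨ g = ofAdd (1 : ZMod 2) := two_cases rfl g
    rcases h1 with rfl | rfl
    · ext κ; simp
    · rw [sgn_one]
      ext κ
      have e1 := gen_mul_self (Γ := (⊥ : SimpleGraph Ω)) (n := fun _ => 2) (v := κ0) rfl
      have e2 := gen_inv (Γ := (⊥ : SimpleGraph Ω)) (n := fun _ => 2) (v := κ0) rfl
      have e3 := gen_inv (Γ := (⊥ : SimpleGraph Ω)) (n := fun _ => 2) (v := κ) rfl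
      simp only [MonoidHom.comp_apply, MulEquiv.coe_toMonoidHom]
      rw [invAut_of, map_inv, FreeGroup.lift_apply_of, cycHom_one, MulAut.conj_apply, mul_inv_rev, e2, e3]
      rw [mul_assoc, mul_assoc, e1, mul_one])

theorem beta_alpha {Ω : Type} (κ0 : Ω) : (beta Ω κ0).comp (alpha Ω) = MonoidHom.id _ := by
  apply hom_ext
  intro v x
  rcases two_cases rfl x with rfl | rfl
  · simp
  · show beta Ω κ0 (alpha Ω (gen ⊥ (fun _ => 2) v)) = gen ⊥ (fun _ => 2) v
    unfold alpha
    rw [liftC_gen, SemidirectProduct.mk_eq_inl_mul_inr, map_mul]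
    unfold beta
    rw [SemidirectProduct.lift_inl, SemidirectProduct.lift_inr, FreeGroup.lift_apply_of, cycHom_one,
      mul_assoc, gsq, mul_one]

theorem NT_FP2 (Ω : Type) (κ0 : Ω) : NT (FP2 Ω) := by
  apply NT_inj (alpha Ω)
  · intro x y h
    have := congrArg (beta Ω κ0) h
    rw [← MonoidHom.comp_apply, ← MonoidHom.comp_apply, beta_alpha] at this
    exact this
  · exact NT_semidirect (NT_freeGroup _) NT_two

section step

variable {V : Type} (Γ : SimpleGraph V) (s : V)

/-- the other vertices -/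
abbrev V' (s : V) : Type := {v : V // v ≠ s}

/-- the induced graph -/
abbrev Γ' : SimpleGraph (V' s) := Γ.comap Subtype.val

/-- the smaller group -/
abbrev W' : Type := CG (Γ' Γ s) (fun _ => 2)

/-- the link subgroup -/
def P' : Subgroup (W' Γ s) := sub {v : V' s | Γ.Adj s v.1}

/-- the index set -/
abbrev Om : Type := W' Γ s ⧸ P' Γ s

/-- permuting the factors -/
def permHom {Ω : Type} (σ : Equiv.Perm Ω) : FP2 Ω →* FP2 Ω :=
  liftC (fun κ => gen ⊥ (fun _ => 2) (σ κ)) (by intro κ; rw [pow_two]; exact gen_mul_self rfl)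
    (by intro u v h; exact (bot_not_adj h).elim)

theorem permHom_gen {Ω : Type} (σ : Equiv.Perm Ω) (κ : Ω) :
    permHom σ (gen ⊥ (fun _ => 2) κ) = gen ⊥ (fun _ => 2) (σ κ) := liftC_gen _ _ _ _

theorem hom_ext2 {Ω : Type} {Δ : SimpleGraph Ω} {H : Type*} [Group H] {f g : CG Δ (fun _ => 2) →* H}
    (h : ∀ κ, f (gen Δ (fun _ => 2) κ) = g (gen Δ (fun _ => 2) κ)) : f = g := by
  apply hom_ext
  intro v x
  rcases two_cases rfl x with rfl | rfl
  · simp
  · exact h v

theorem permHom_mul {Ω : Type} (σ τ : Equiv.Perm Ω) (x : FP2 Ω) :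
    permHom (σ * τ) x = permHom σ (permHom τ x) := by
  have : permHom (σ * τ) = (permHom σ).comp (permHom τ) := by
    apply hom_ext2
    intro κ
    rw [MonoidHom.comp_apply, permHom_gen, permHom_gen, permHom_gen]
    rfl
  rw [this]; rfl

theorem permHom_one {Ω : Type} (x : FP2 Ω) : permHom (1 : Equiv.Perm Ω) x = x := by
  have : permHom (1 : Equiv.Perm Ω) = MonoidHom.id _ := by
    apply hom_ext2
    intro κ
    rw [permHom_gen]; rfl
  rw [this]; rfl

/-- permuting the factors, as an automorphism -/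
def permAut (Ω : Type) : Equiv.Perm Ω →* MulAut (FP2 Ω) where
  toFun σ :=
    { toFun := permHom σ
      invFun := permHom σ⁻¹
      left_inv := by intro x; rw [← permHom_mul, inv_mul_cancel, permHom_one]
      right_inv := by intro x; rw [← permHom_mul, mul_inv_cancel, permHom_one]
      map_mul' := map_mul _ }
  map_one' := by ext x; exact permHom_one x
  map_mul' σ τ := by ext x; exact permHom_mul σ τ x

/-- the action of the smaller group -/
def phi' : W' Γ s →* MulAut (FP2 (Om Γ s)) :=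
  (permAut (Om Γ s)).comp (MulAction.toPermHom (W' Γ s) (Om Γ s))

theorem phi'_gen (g : W' Γ s) (κ : Om Γ s) :
    phi' Γ s g (gen ⊥ (fun _ => 2) κ) = gen ⊥ (fun _ => 2) (g • κ) := permHom_gen _ _

open Classical in
/-- the forward map -/
noncomputable def Psi : CG Γ (fun _ => 2) →* (FP2 (Om Γ s)) ⋊[phi' Γ s] (W' Γ s) :=
  liftC (fun v => if h : v = s then
      SemidirectProduct.inl (gen ⊥ (fun _ => 2) ((1 : W' Γ s) : Om Γ s))
    else SemidirectProduct.inr (gen (Γ' Γ s) (fun _ => 2) ⟨v, h⟩)) (by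
    intro v
    by_cases h : v = s
    · simp only [dif_pos h]
      rw [pow_two, ← map_mul, gsq, map_one]
    · simp only [dif_neg h]
      rw [pow_two, ← map_mul, gsq, map_one]) (by
    have key : ∀ v (hv : v ≠ s), Γ.Adj s v →
        (SemidirectProduct.inr (gen (Γ' Γ s) (fun _ => 2) ⟨v, hv⟩) *
          SemidirectProduct.inl (gen ⊥ (fun _ => 2) ((1 : W' Γ s) : Om Γ s)) :
          (FP2 (Om Γ s)) ⋊[phi' Γ s] (W' Γ s)) =
        SemidirectProduct.inl (gen ⊥ (fun _ => 2) ((1 : W' Γ s) : Om Γ s)) *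
          SemidirectProduct.inr (gen (Γ' Γ s) (fun _ => 2) ⟨v, hv⟩) := by
      intro v hv hadj
      have h1 : phi' Γ s (gen (Γ' Γ s) (fun _ => 2) ⟨v, hv⟩)
          (gen ⊥ (fun _ => 2) ((1 : W' Γ s) : Om Γ s)) =
          gen ⊥ (fun _ => 2) ((1 : W' Γ s) : Om Γ s) := by
        rw [phi'_gen]
        congr 1
        show ((gen (Γ' Γ s) (fun _ => 2) ⟨v, hv⟩ * 1 : W' Γ s) : Om Γ s) = ((1 : W' Γ s) : Om Γ s)
        rw [mul_one, eq_comm, QuotientGroup.eq, inv_one, one_mul]
        exact gen_mem_sub (by exact hadj)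
      have h2 := SemidirectProduct.inl_aut (φ := phi' Γ s) (gen (Γ' Γ s) (fun _ => 2) ⟨v, hv⟩)
        (gen ⊥ (fun _ => 2) ((1 : W' Γ s) : Om Γ s))
      rw [h1] at h2
      rw [map_inv] at h2
      rw [eq_mul_inv_iff_mul_eq] at h2
      exact h2.symm
    intro u v h
    by_cases hu : u = s
    · have hv : v ≠ s := by rintro rfl; exact Γ.loopless.irrefl _ (hu ▸ h)
      simp only [dif_pos hu, dif_neg hv]
      exact (key v hv (hu ▸ h)).symm
    · by_cases hv : v = s
      · simp only [dif_neg hu, dif_pos hv]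
        exact key u hu (hv ▸ h.symm)
      · simp only [dif_neg hu, dif_neg hv]
        rw [← map_mul, ← map_mul]
        congr 1
        exact of_comm (Γ := Γ' Γ s) (by exact h) _ _)

/-- inclusion of the smaller group -/
def incl : W' Γ s →* CG Γ (fun _ => 2) :=
  liftC (fun v => gen Γ (fun _ => 2) v.1) (by intro v; rw [pow_two]; exact gen_mul_self rfl)
    (by intro u v h; exact of_comm (Γ := Γ) h _ _)

theorem incl_gen (v : V' s) : incl Γ s (gen (Γ' Γ s) (fun _ => 2) v) = gen Γ (fun _ => 2) v.1 :=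
  liftC_gen _ _ _ _

theorem incl_comm {p : W' Γ s} (hp : p ∈ P' Γ s) :
    incl Γ s p * gen Γ (fun _ => 2) s = gen Γ (fun _ => 2) s * incl Γ s p := by
  refine sub_induction (p := fun p => incl Γ s p * gen Γ (fun _ => 2) s =
    gen Γ (fun _ => 2) s * incl Γ s p) hp (by simp) ?_
  intro g v x hv _ ih
  have hx : incl Γ s (of v x) * gen Γ (fun _ => 2) s = gen Γ (fun _ => 2) s * incl Γ s (of v x) := by
    rcases two_cases rfl x with rfl | rfl
    · simp
    · show incl Γ s (gen (Γ' Γ s) (fun _ => 2) v) * _ = _ * incl Γ s (gen (Γ' Γ s) (fun _ => 2) v)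
      rw [incl_gen]
      exact (of_comm (Γ := Γ) hv _ _).symm
  rw [map_mul, mul_assoc, hx, ← mul_assoc, ih, mul_assoc]

theorem out_conj (k : W' Γ s) :
    incl Γ s (Quotient.out (k : Om Γ s)) * gen Γ (fun _ => 2) s *
      (incl Γ s (Quotient.out (k : Om Γ s)))⁻¹ =
    incl Γ s k * gen Γ (fun _ => 2) s * (incl Γ s k)⁻¹ := by
  obtain ⟨p, hp⟩ := QuotientGroup.mk_out_eq_mul (P' Γ s) k
  rw [hp, map_mul]
  have := incl_comm Γ s p.2
  rw [mul_assoc (incl Γ s k), this, mul_inv_rev]
  group

/-- the map on the free product -/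
noncomputable def thetaN : FP2 (Om Γ s) →* CG Γ (fun _ => 2) :=
  liftC (fun κ => incl Γ s (Quotient.out κ) * gen Γ (fun _ => 2) s * (incl Γ s (Quotient.out κ))⁻¹)
    (by
      intro κ
      rw [pow_two]
      have := gen_mul_self (Γ := Γ) (n := fun _ => 2) (v := s) rfl
      calc incl Γ s (Quotient.out κ) * gen Γ (fun _ => 2) s * (incl Γ s (Quotient.out κ))⁻¹ *
          (incl Γ s (Quotient.out κ) * gen Γ (fun _ => 2) s * (incl Γ s (Quotient.out κ))⁻¹) =
          incl Γ s (Quotient.out κ) * (gen Γ (fun _ => 2) s * gen Γ (fun _ => 2) s) *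
            (incl Γ s (Quotient.out κ))⁻¹ := by group
        _ = 1 := by rw [this]; group)
    (by intro u v h; exact (bot_not_adj h).elim)

theorem thetaN_gen (k : W' Γ s) : thetaN Γ s (gen ⊥ (fun _ => 2) (k : Om Γ s)) =
    incl Γ s k * gen Γ (fun _ => 2) s * (incl Γ s k)⁻¹ := by
  unfold thetaN
  rw [liftC_gen]
  exact out_conj Γ s k

/-- the left inverse -/
noncomputable def theta : (FP2 (Om Γ s)) ⋊[phi' Γ s] (W' Γ s) →* CG Γ (fun _ => 2) :=
  SemidirectProduct.lift (thetaN Γ s) (incl Γ s) (by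
    intro g
    apply hom_ext2
    intro κ
    obtain ⟨k, rfl⟩ := QuotientGroup.mk_surjective κ
    simp only [MonoidHom.comp_apply, MulEquiv.coe_toMonoidHom]
    rw [phi'_gen, thetaN_gen, MulAut.conj_apply]
    show thetaN Γ s (gen ⊥ (fun _ => 2) ((g * k : W' Γ s) : Om Γ s)) = _
    rw [thetaN_gen, map_mul]
    group)

theorem theta_Psi : (theta Γ s).comp (Psi Γ s) = MonoidHom.id _ := by
  classical
  apply hom_ext2
  intro v
  rw [MonoidHom.comp_apply]
  unfold Psi
  rw [liftC_gen]
  by_cases h : v = s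
  · subst h
    rw [dif_pos rfl]
    unfold theta
    rw [SemidirectProduct.lift_inl, thetaN_gen, map_one]
    simp
  · rw [dif_neg h]
    unfold theta
    rw [SemidirectProduct.lift_inr, incl_gen]
    rfl

theorem NT_step (h : NT (W' Γ s)) : NT (CG Γ (fun _ => 2)) := by
  apply NT_inj (Psi Γ s)
  · intro x y hxy
    have := congrArg (theta Γ s) hxy
    rw [← MonoidHom.comp_apply, ← MonoidHom.comp_apply, theta_Psi] at this
    exact this
  · exact NT_semidirect (NT_FP2 _ ((1 : W' Γ s) : Om Γ s)) h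

end step

/-- **Right-angled Coxeter groups have no odd torsion.** -/
theorem NT_racg : ∀ (n : ℕ) (V : Type) [Finite V] (Γ : SimpleGraph V), Nat.card V = n →
    NT (CG Γ (fun _ => 2)) := by
  intro n
  induction n with
  | zero =>
    intro V _ Γ hV h q _ _
    have hemp : IsEmpty V := by
      rcases isEmpty_or_nonempty V with h | h
      · exact h
      · have := Nat.card_pos (α := V)
        omega
    induction h using induction_right with
    | h1 => rfl
    | hm g v x ih => exact hemp.elim v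
  | succ n ih =>
    intro V _ Γ hV
    have hne : Nonempty V := by
      by_contra h
      rw [not_nonempty_iff] at h
      rw [Nat.card_of_isEmpty] at hV
      omega
    obtain ⟨s⟩ := hne
    apply NT_step Γ s
    apply ih
    classical
    have : Fintype V := Fintype.ofFinite V
    rw [Nat.card_eq_fintype_card] at hV ⊢
    rw [Fintype.card_subtype_compl, Fintype.card_subtype_eq, hV]
    rfl

end Pool.Agent.KS6_39.RB
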