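import Pool.Agent.KS6_39.RB.Tree
import Pool.Agent.KS6_39.RB.Tors

set_option autoImplicit false

/-!
# No right-angled Coxeter group acts in this way
-/

namespace Pool.Agent.KS6_39.RB

variable [Par]

open Multiplicative GP CG WA

namespace Racg

variable {V : Type} {Γ : SimpleGraph V}

/-- the group -/
abbrev Wg (Γ : SimpleGraph V) : Type := CG Γ (fun _ => 2)

/-- generators -/
abbrev g (Γ : SimpleGraph V) (v : V) : Wg Γ := gen Γ (fun _ => 2) v

theorem of_cases' {v : V} (x : Multiplicative (ZMod 2)) :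
    (GP.of v x : Wg Γ) = 1 ∨ (GP.of v x : Wg Γ) = g Γ v :=
  of_cases (n := fun _ => 2) rfl x

theorem gg (v : V) : g Γ v * g Γ v = 1 := gsq Γ v

variable [Finite V]

omit [Finite V] in
theorem invol : Subgroup.closure {s : Wg Γ | s * s = 1} = ⊤ := by
  rw [eq_top_iff]
  intro w _
  induction w using induction_right with
  | h1 => exact one_mem _
  | hm w v x ih =>
    refine mul_mem (ih trivial) ?_
    rcases of_cases' (Γ := Γ) x with h | h
    · rw [h]; exact one_mem _
    · rw [h]; exact Subgroup.subset_closure (gg v)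

variable (Z : WA (Wg Γ) (gens Set.univ))

/-- generators on the positive side -/
def Sp (e : Z.E) : Set V := {v | g Γ v • Z.ln e ≠ Z.ln e ∧ Z.pgL (Z.ln e) (g Γ v • Z.ln e) = e}

/-- generators fixing the page -/
def S0 (e : Z.E) : Set V := {v | g Γ v • e = e}

variable {Z}

omit [Finite V] in
theorem gg_smul (v : V) (ω : Z.Λ) : g Γ v • g Γ v • ω = ω := by
  rw [← mul_smul, gg, one_smul]

theorem exists_both : ∃ e : Z.E, (∀ e1 e2, Z.ln e1 = Z.ln e → Z.ln e2 = Z.ln e → Z.eqv e1 e2) ∧
    (∃ s, s ∈ Sp Z e) ∧ (∃ t, t ∉ Sp Z e ∧ t ∉ S0 Z e) := by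
  obtain ⟨ω0, h0⟩ := Z.exists_transitive invol
  by_contra hcon
  push Not at hcon
  have htr : ∀ (w : Wg Γ) e1 e2, Z.ln e1 = w • ω0 → Z.ln e2 = w • ω0 → Z.eqv e1 e2 := by
    intro w e1 e2 h1 h2
    have h3 := h0 (w⁻¹ • e1) (w⁻¹ • e2) (by rw [Z.ln_smul, h1, inv_smul_smul])
      (by rw [Z.ln_smul, h2, inv_smul_smul])
    obtain ⟨w', hw'⟩ := h3
    refine ⟨w * w' * w⁻¹, ?_⟩
    rw [mul_smul, mul_smul, hw', smul_inv_smul]
  let Pr : Z.Λ → Z.E → Prop := fun ω e => Z.ln e = ω ∧
    ∀ t, (g Γ t • ω ≠ ω ∧ Z.pgL ω (g Γ t • ω) = e) ∨ g Γ t • e = e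
  have hmove : ∀ ω : Z.Λ, ∃ v, g Γ v • ω ≠ ω := by
    intro ω
    by_contra hv
    push Not at hv
    obtain ⟨w, hw⟩ := Z.nofix ω
    apply hw
    clear hw
    induction w using induction_right with
    | h1 => exact one_smul _ _
    | hm w v x ih =>
      rcases of_cases' (Γ := Γ) x with h | h
      · rw [h, mul_one]; exact ih
      · rw [h, mul_smul, hv, ih]
  have hex : ∀ w : Wg Γ, ∃ e, Pr (w • ω0) e := by
    intro w
    obtain ⟨v, hv⟩ := hmove (w • ω0)
    have hln := Z.ln_pgL (w • ω0) _ hv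
    refine ⟨Z.pgL (w • ω0) (g Γ v • w • ω0), hln, ?_⟩
    intro t
    have h1 := hcon (Z.pgL (w • ω0) (g Γ v • w • ω0)) (by
      intro e1 e2 h1 h2
      rw [hln] at h1 h2
      exact htr w e1 e2 h1 h2) ⟨v, by
        refine ⟨?_, ?_⟩
        · rw [hln]; exact hv
        · rw [hln]⟩ t
    by_cases ht : t ∈ Sp Z (Z.pgL (w • ω0) (g Γ v • w • ω0))
    · left
      obtain ⟨h2, h3⟩ := ht
      rw [hln] at h2 h3
      exact ⟨h2, h3⟩
    · right
      exact h1 ht
  have huniq : ∀ ω e e', Pr ω e → Pr ω e' → e = e' := by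
    intro ω e e' h1 h2
    obtain ⟨v, hv⟩ := hmove ω
    have key : ∀ e, Pr ω e → Z.pgL ω (g Γ v • ω) = e := by
      intro e h
      rcases h.2 v with h3 | h3
      · exact h3.2
      · exfalso
        apply hv
        have := congrArg Z.ln h3
        rw [Z.ln_smul, h.1] at this
        exact this
    rw [← key e h1, ← key e' h2]
  have hgen : ∀ (w : Wg Γ) (s : V) e, Pr (w • ω0) e → Pr (g Γ s • w • ω0) (g Γ s • e) := by
    intro w s e he
    obtain ⟨e'', he''⟩ := hex (g Γ s * w)
    rw [mul_smul] at he''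
    have : g Γ s • e = e'' := by
      by_cases hs : g Γ s • w • ω0 = w • ω0
      · rw [hs] at he''
        have h1 := huniq _ _ _ he he''
        rcases he.2 s with h2 | h2
        · exact absurd hs h2.1
        · rw [h2, h1]
      · have h1 : Z.pgL (w • ω0) (g Γ s • w • ω0) = e := by
          rcases he.2 s with h2 | h2
          · exact h2.2
          · exfalso
            apply hs
            have := congrArg Z.ln h2
            rw [Z.ln_smul, he.1] at this
            exact this
        have hs' : g Γ s • g Γ s • w • ω0 ≠ g Γ s • w • ω0 := by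
          rw [gg_smul]; exact fun h => hs h.symm
        have h2 : Z.pgL (g Γ s • w • ω0) (g Γ s • g Γ s • w • ω0) = e'' := by
          rcases he''.2 s with h2 | h2
          · exact h2.2
          · exfalso
            apply hs'
            have := congrArg Z.ln h2
            rw [Z.ln_smul, he''.1] at this
            exact this
        rw [← h1, ← h2]
        exact Z.pgL_smul _ _ _ hs
    rw [this]
    exact he''
  have hall : ∀ (w w' : Wg Γ) e, Pr (w' • ω0) e → Pr (w • w' • ω0) (w • e) := by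
    intro w
    induction w using induction_right with
    | h1 => intro w' e h; rw [one_smul, one_smul]; exact h
    | hm w v x ih =>
      intro w' e h
      rcases of_cases' (Γ := Γ) x with hx | hx
      · rw [hx, mul_one]; exact ih w' e h
      · rw [hx, mul_smul, mul_smul]
        have h1 := hgen w' v e h
        rw [← mul_smul] at h1
        have h2 := ih (g Γ v * w') _ h1
        rwa [mul_smul (g Γ v) w' ω0] at h2
  obtain ⟨e0, he0⟩ := hex 1
  rw [one_smul] at he0
  have hfix : ∀ w : Wg Γ, w • ω0 = ω0 → w • e0 = e0 := by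
    intro w hw
    have h1 := hall w 1 e0 (by rw [one_smul]; exact he0)
    rw [one_smul, hw] at h1
    exact huniq _ _ _ h1 he0
  have hother : ∃ e', Z.ln e' = ω0 ∧ e' ≠ e0 := by
    by_contra h
    push Not at h
    have : {e | Z.ln e = ω0} ⊆ {e0} := fun e he => h e he
    have h2 := Set.ncard_le_ncard this (Set.finite_singleton e0)
    rw [Set.ncard_singleton] at h2
    have h3 := Z.fiber ω0
    have h4 := Par.two_lt Par.p Par.hp Par.np
    have h5 := Par.two_lt Par.q Par.hq Par.nq
    omega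
  obtain ⟨e', he', hne⟩ := hother
  obtain ⟨w, hw⟩ := h0 e0 e' he0.1 he'
  apply hne
  rw [← hw]
  apply hfix
  have := congrArg Z.ln hw
  rw [Z.ln_smul, he0.1, he'] at this
  exact this

theorem not_adj {e : Z.E} {s t : V} (hs : s ∈ Sp Z e) (ht : t ∉ Sp Z e) (ht' : t ∉ S0 Z e) :
    ¬ Γ.Adj s t := by
  intro hadj
  obtain ⟨hs1, hs2⟩ := hs
  have hc : g Γ s * g Γ t = g Γ t * g Γ s := of_comm hadj _ _
  have hcΛ : ∀ ω : Z.Λ, g Γ s • g Γ t • ω = g Γ t • g Γ s • ω := by
    intro ω
    rw [← mul_smul, ← mul_smul, hc]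
  by_cases h1 : g Γ t • Z.ln e = Z.ln e
  · apply ht'
    show g Γ t • e = e
    have h2 := Z.pgL_smul (g Γ t) (Z.ln e) (g Γ s • Z.ln e) hs1
    rw [hs2, h1, ← hcΛ, h1, hs2] at h2
    exact h2
  · have h2 : Z.pgL (Z.ln e) (g Γ t • Z.ln e) ≠ e := fun h => ht ⟨h1, h⟩
    set ω := Z.ln e with hω
    have hst : g Γ s • g Γ t • ω ≠ g Γ s • ω := fun h => h1 (smul_left_cancel _ h)
    have hts : g Γ t • g Γ s • ω ≠ g Γ t • ω := fun h => hs1 (smul_left_cancel _ h)
    -- first separation
    have e1 := Z.pgL_smul (g Γ s) ω (g Γ s • ω) hs1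
    have e2 := Z.pgL_smul (g Γ s) ω (g Γ t • ω) h1
    rw [gg_smul, hs2] at e1
    have k1 : Z.pgL (g Γ s • ω) ω ≠ Z.pgL (g Γ s • ω) (g Γ s • g Γ t • ω) := by
      rw [← e1, ← e2]
      intro h
      exact h2 (smul_left_cancel _ h).symm
    have m1 := Z.sepr (g Γ s • ω) ω (g Γ s • g Γ t • ω) (Ne.symm hs1) hst k1
    -- second separation
    have e3 := Z.pgL_smul (g Γ t) ω (g Γ t • ω) h1
    have e4 := Z.pgL_smul (g Γ t) ω (g Γ s • ω) hs1
    rw [gg_smul] at e3
    rw [hs2] at e4
    have k2 : Z.pgL (g Γ t • ω) ω ≠ Z.pgL (g Γ t • ω) (g Γ t • g Γ s • ω) := by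
      rw [← e3, ← e4]
      intro h
      exact h2 (smul_left_cancel _ h)
    have m2 := Z.sepr (g Γ t • ω) ω (g Γ t • g Γ s • ω) (Ne.symm h1) hts k2
    apply h2
    rw [m2, ← hcΛ, ← m1, hs2]

theorem finite_clique (T : Set V) (hT : ∀ u ∈ T, ∀ v ∈ T, u ≠ v → Γ.Adj u v) :
    ((sub T : Subgroup (Wg Γ)) : Set (Wg Γ)).Finite := by
  have hfin := Set.toFinite T
  refine Set.Finite.induction_on_subset
    (motive := fun T' _ => ((sub T' : Subgroup (Wg Γ)) : Set (Wg Γ)).Finite) T hfin ?_ ?_
  · rw [sub_empty]; exact Set.finite_singleton 1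
  · intro v T' hv hT' hv' ih
    have hsing : ((sub {v} : Subgroup (Wg Γ)) : Set (Wg Γ)).Finite := by
      have : ((sub {v} : Subgroup (Wg Γ)) : Set (Wg Γ)) ⊆ Set.range (fun x : Multiplicative (ZMod 2) => (GP.of v x : Wg Γ)) := by
        intro y hy
        obtain ⟨x, hx⟩ := sub_singleton hy
        exact ⟨x, hx.symm⟩
      exact (Set.finite_range _).subset this
    refine (ih.image2 (fun a b => a * b) hsing).subset ?_
    intro y hy
    have := decomp (fun u hu => hT v hv u (hT' hu) (fun h => hv' (h ▸ hu))) hy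
    exact ⟨_, retr_mem _ _, _, retr_mem _ _, this.symm⟩

/-- The line group fixing a page is infinite. -/
theorem sub_infinite {e : Z.E} {s t : V} (hs : s ∈ Sp Z e) (ht : t ∉ Sp Z e) (ht' : t ∉ S0 Z e) :
    ((sub (S0 Z e) : Subgroup (Wg Γ)) : Set (Wg Γ)).Infinite := by
  classical
  intro hfin
  have hs0 : ∀ v, v ∈ Sp Z e → v ∉ S0 Z e := by
    intro v hv hv'
    apply hv.1
    have := congrArg Z.ln (show g Γ v • e = e from hv')
    rwa [Z.ln_smul] at this
  have hstne : s ≠ t := by rintro rfl; exact ht hs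
  have hnadj := not_adj hs ht ht'
  let F := Multiplicative (ZMod 2)
  let ι : Wg Γ → F := fun w => if w ∈ (sub (S0 Z e) : Subgroup (Wg Γ)) then ofAdd 1 else 1
  have ιsq : ∀ w, ι w * ι w = 1 := by
    intro w
    have : ∀ x : Multiplicative (ZMod 2), x * x = 1 := by decide
    exact this _
  have ιinv : ∀ w (v : V) (x : Multiplicative (ZMod 2)), v ∈ S0 Z e → ι (w * of v x) = ι w := by
    intro w v x hv
    have : w * of v x ∈ (sub (S0 Z e) : Subgroup (Wg Γ)) ↔ w ∈ (sub (S0 Z e) : Subgroup (Wg Γ)) :=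
      Subgroup.mul_mem_cancel_right _ (of_mem_sub (A := fun _ => Multiplicative (ZMod 2)) hv x)
    simp only [ι, this]
  obtain ⟨χ, χ1, χ2⟩ := exists_potential (Γ := Γ) (A := fun _ => Multiplicative (ZMod 2)) (F := F)
    (fun v w x => if v ∈ Sp Z e then ι w * ι (w * of v x) else 1) (by
      intro v w x y
      by_cases hv : v ∈ Sp Z e
      · simp only [if_pos hv]
        rw [map_mul, ← mul_assoc w]
        calc ι w * ι (w * of v x * of v y) =
            ι w * (ι (w * of v x) * ι (w * of v x)) * ι (w * of v x * of v y) := by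
              rw [ιsq, mul_one]
          _ = _ := by simp only [mul_assoc]
      · simp only [if_neg hv, mul_one]) (by
      intro a b hab w x y
      have hcomm : w * of a x * of b y = w * of b y * of a x := by
        rw [mul_assoc, mul_assoc, of_comm hab]
      by_cases ha : a ∈ Sp Z e
      · by_cases hb : b ∈ Sp Z e
        · simp only [if_pos ha, if_pos hb]
          calc ι w * ι (w * of a x) * (ι (w * of a x) * ι (w * of a x * of b y)) =
              ι w * (ι (w * of a x) * ι (w * of a x)) * ι (w * of a x * of b y) := by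
                simp only [mul_assoc]
            _ = ι w * (ι (w * of b y) * ι (w * of b y)) * ι (w * of b y * of a x) := by
                rw [ιsq, ιsq, hcomm]
            _ = _ := by simp only [mul_assoc]
        · have hb0 : b ∈ S0 Z e := by
            by_contra hb0
            exact not_adj ha hb hb0 hab
          simp only [if_pos ha, if_neg hb, mul_one, one_mul]
          rw [ιinv _ _ _ hb0, ← hcomm, ιinv _ _ _ hb0]
      · by_cases hb : b ∈ Sp Z e
        · have ha0 : a ∈ S0 Z e := by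
            by_contra ha0
            exact not_adj hb ha ha0 hab.symm
          simp only [if_pos hb, if_neg ha, mul_one, one_mul]
          rw [ιinv _ _ _ ha0, hcomm, ιinv _ _ _ ha0]
        · simp only [if_neg ha, if_neg hb])
  have χp : ∀ w v, v ∈ Sp Z e → χ (w * g Γ v) = χ w * (ι w * ι (w * g Γ v)) := by
    intro w v hv
    have := χ2 v w (ofAdd (1 : ZMod 2))
    rw [if_pos hv] at this
    exact this
  have χn : ∀ w v, v ∉ Sp Z e → χ (w * g Γ v) = χ w := by
    intro w v hv
    have := χ2 v w (ofAdd (1 : ZMod 2))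
    rw [if_neg hv, mul_one] at this
    exact this
  -- finite boundary
  have hgfin : (gens Set.univ : Set (Wg Γ)).Finite := gens_finite _
  have hbd : {w : Wg Γ | ∃ y ∈ (gens Set.univ : Set (Wg Γ)), χ (w * y) ≠ χ w}.Finite := by
    refine (hfin.union (hfin.image2 (fun a b => a * b⁻¹) hgfin)).subset ?_
    rintro w ⟨y, ⟨v, -, x, rfl⟩, hy⟩
    by_contra hw
    simp only [Set.mem_union, not_or] at hw
    apply hy
    rw [χ2]
    by_cases hv : v ∈ Sp Z e
    · have h1 : ι w = 1 := if_neg hw.1
      have h2 : ι (w * of v x) = 1 := by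
        apply if_neg
        intro h
        exact hw.2 ⟨_, h, _, ⟨v, trivial, x, rfl⟩, by simp⟩
      simp only [if_pos hv]
      rw [h1, h2]; simp
    · simp only [if_neg hv]; simp
  obtain ⟨F0, hF0, hconst⟩ := Z.one F χ hbd
  -- the dihedral homomorphism
  obtain ⟨φ, h1, h2, h3⟩ := exists_dihedral (Γ := Γ) (n := fun _ => 2) hstne hnadj rfl rfl
  have hker : ∀ y ∈ (sub (S0 Z e) : Subgroup (Wg Γ)), φ y = 1 := by
    intro y hy
    refine sub_induction (p := fun y => φ y = 1) hy (map_one _) ?_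
    intro y z x hz _ ih
    have hzs : z ≠ s := fun h => hs0 s hs (h ▸ hz)
    have hzt : z ≠ t := fun h => ht' (h ▸ hz)
    rw [map_mul, ih, h3 z hzs hzt, one_mul]
  have hφ1 : ∀ k : ℕ, ∀ c, φ ((g Γ s * g Γ t) ^ k) c = c - k := by
    intro k c
    rw [← zpow_natCast, dih_zpow h1 h2]
  have hφ2 : ∀ k : ℕ, ∀ c, φ ((g Γ t * g Γ s) ^ k) c = c + k := by
    intro k c
    have h5 : g Γ t * g Γ s = (g Γ s * g Γ t)⁻¹ := by
      rw [mul_inv_rev, gen_inv (n := fun _ => 2) rfl, gen_inv (n := fun _ => 2) rfl]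
    rw [h5, inv_pow, ← zpow_natCast, ← zpow_neg, dih_zpow h1 h2]
    ring
  have ι1 : ι 1 = ofAdd 1 := if_pos (one_mem _)
  have ιn : ∀ w : Wg Γ, φ w ≠ 1 → ι w = 1 := fun w hw => if_neg (fun h => hw (hker w h))
  have val1 : ∀ k : ℕ, χ ((g Γ s * g Γ t) ^ (k + 1)) = ofAdd 1 := by
    intro k
    induction k with
    | zero =>
      have : (g Γ s * g Γ t) ^ (0 + 1) = 1 * g Γ s * g Γ t := by simp
      rw [this, χn _ _ ht, χp _ _ hs, χ1, ι1, one_mul, one_mul, ιn, mul_one]
      intro h
      have := congrArg (fun p => p 1) h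
      simp only [h1, refl_apply] at this
      simp at this
    | succ k ih =>
      rw [pow_succ, ← mul_assoc, χn _ _ ht, χp _ _ hs, ih, ιn, ιn]
      · simp
      · intro h
        have e0 := congrArg (fun p => p 0) h
        have e1 := congrArg (fun p => p 1) h
        simp only [map_mul, Equiv.Perm.mul_apply, h1, refl_apply, hφ1, Equiv.Perm.one_apply] at e0 e1
        push_cast at e0 e1
        omega
      · intro h
        have e0 := congrArg (fun p => p 0) h
        simp only [hφ1, Equiv.Perm.one_apply] at e0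
        push_cast at e0
        omega
  have val2 : ∀ k : ℕ, χ ((g Γ t * g Γ s) ^ k) = 1 := by
    intro k
    induction k with
    | zero => rw [pow_zero, χ1]
    | succ k ih =>
      rw [pow_succ, ← mul_assoc, χp _ _ hs, χn _ _ ht, ih, ιn, ιn]
      · simp
      · have : (g Γ t * g Γ s) ^ k * g Γ t * g Γ s = (g Γ t * g Γ s) ^ (k + 1) := by
          rw [pow_succ, mul_assoc]
        rw [this]
        intro h
        have e0 := congrArg (fun p => p 0) h
        simp only [hφ2, Equiv.Perm.one_apply] at e0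
        push_cast at e0
        omega
      · intro h
        have e0 := congrArg (fun p => p 0) h
        have e1 := congrArg (fun p => p 1) h
        simp only [map_mul, Equiv.Perm.mul_apply, h2, refl_apply, hφ2, Equiv.Perm.one_apply] at e0 e1
        omega
  have inj1 : Function.Injective (fun k : ℕ => (g Γ s * g Γ t) ^ (k + 1)) := by
    intro k k' h
    have := congrArg (fun w => φ w 0) h
    simp only [hφ1] at this
    push_cast at this
    omega
  have inj2 : Function.Injective (fun k : ℕ => (g Γ t * g Γ s) ^ k) := by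
    intro k k' h
    have := congrArg (fun w => φ w 0) h
    simp only [hφ2] at this
    omega
  obtain ⟨_, ⟨k, rfl⟩, hk⟩ := (Set.infinite_range_of_injective inj1).exists_notMem_finite hF0
  obtain ⟨_, ⟨k', rfl⟩, hk'⟩ := (Set.infinite_range_of_injective inj2).exists_notMem_finite hF0
  have := hconst _ _ hk hk'
  simp only [val1, val2] at this
  exact absurd this (by decide)

theorem contradiction (Z : WA (Wg Γ) (gens Set.univ)) : False := by
  classical
  obtain ⟨e, htr, ⟨s, hs⟩, ⟨t, ht, ht'⟩⟩ := exists_both (Z := Z)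
  have hinf := sub_infinite hs ht ht'
  have huv : ∃ u ∈ S0 Z e, ∃ v ∈ S0 Z e, u ≠ v ∧ ¬ Γ.Adj u v := by
    by_contra hcon
    push Not at hcon
    exact hinf (finite_clique _ hcon)
  obtain ⟨u, hu, v, hv, huv, hadj⟩ := huv
  set ω := Z.ln e with hω
  -- the stabiliser of the line, and the finite kernel
  let N : Subgroup (Wg Γ) := MulAction.stabilizer (Wg Γ) ω ⊓ (retr {u, v} : Wg Γ →* Wg Γ).ker
  have hDe : ∀ d ∈ (sub {u, v} : Subgroup (Wg Γ)), d • e = e := by
    intro d hd
    refine sub_induction (p := fun d => d • e = e) hd (one_smul _ _) ?_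
    intro d z x hz _ ih
    have hz' : g Γ z • e = e := by
      rcases hz with rfl | hz
      · exact hu
      · rw [Set.mem_singleton_iff] at hz; subst hz; exact hv
    rcases of_cases' (Γ := Γ) x with h | h
    · rw [h, mul_one, ih]
    · rw [h, mul_smul, hz', ih]
  have hDω : ∀ d ∈ (sub {u, v} : Subgroup (Wg Γ)), d • ω = ω := by
    intro d hd
    have := congrArg Z.ln (hDe d hd)
    rwa [Z.ln_smul] at this
  obtain ⟨φ, h1, h2, h3⟩ := exists_dihedral (Γ := Γ) (n := fun _ => 2) huv hadj rfl rfl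
  have hgfin : (gens Set.univ : Set (Wg Γ)).Finite := gens_finite _
  have hNfin : (N : Set (Wg Γ)).Finite := by
    obtain ⟨C, hC⟩ := Z.stab ω
    have hbound : ∀ r : ℕ, {w : Wg Γ | w ∈ N ∧ w ∈ Bl (gens Set.univ) (2 * r)}.ncard ≤ 4 * C := by
      intro r
      have hBf := Bl_finite hgfin (4 * r)
      let f : Wg Γ × ℕ → Wg Γ := fun p => p.1 * (g Γ u * g Γ v) ^ p.2
      have hmap : f '' ({w : Wg Γ | w ∈ N ∧ w ∈ Bl (gens Set.univ) (2 * r)} ×ˢ Set.Iic r) ⊆
          {w : Wg Γ | w ∈ Bl (gens Set.univ) (4 * r) ∧ w • ω = ω} := by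
        rintro _ ⟨⟨w, k⟩, ⟨⟨hw, hw'⟩, hk⟩, rfl⟩
        simp only [Set.mem_Iic] at hk
        have hg1 : g Γ u * g Γ v ∈ Bl (gens Set.univ : Set (Wg Γ)) 2 :=
          mul_mem_Bl (gen_mem_Bl (gen_mem_gens (Set.mem_univ _)))
            (gen_mem_Bl (gen_mem_gens (Set.mem_univ _)))
        constructor
        · refine Bl_mono ?_ (mul_mem_Bl hw' (pow_mem_Bl hg1 k))
          omega
        · have hd : (g Γ u * g Γ v) ^ k ∈ (sub {u, v} : Subgroup (Wg Γ)) :=
            pow_mem (mul_mem (gen_mem_sub (by simp)) (gen_mem_sub (by simp))) k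
          show (w * (g Γ u * g Γ v) ^ k) • ω = ω
          rw [mul_smul, hDω _ hd]
          exact hw.1
      have hinj : Set.InjOn f ({w : Wg Γ | w ∈ N ∧ w ∈ Bl (gens Set.univ) (2 * r)} ×ˢ Set.Iic r) := by
        rintro ⟨w, k⟩ ⟨⟨hw, -⟩, -⟩ ⟨w', k'⟩ ⟨⟨hw', -⟩, -⟩ h
        have h' : w * (g Γ u * g Γ v) ^ k = w' * (g Γ u * g Γ v) ^ k' := h
        have hρ := congrArg (retr {u, v}) h'
        have m1 : retr {u, v} w = 1 := hw.2
        have m2 : retr {u, v} w' = 1 := hw'.2
        have hd : ∀ k : ℕ, retr {u, v} ((g Γ u * g Γ v) ^ k) = (g Γ u * g Γ v) ^ k := fun k =>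
          retr_eq_self (pow_mem (mul_mem (gen_mem_sub (by simp)) (gen_mem_sub (by simp))) k)
        rw [map_mul, map_mul, m1, m2, one_mul, one_mul, hd, hd] at hρ
        have hk : k = k' := by
          have := congrArg (fun w => φ w 0) hρ
          simp only [← zpow_natCast, dih_zpow h1 h2] at this
          omega
        subst hk
        rw [mul_right_cancel h']
      have hcount := Set.ncard_le_ncard hmap (hBf.subset (fun w hw => hw.1))
      rw [hinj.ncard_image, Set.ncard_prod] at hcount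
      have hIic : (Set.Iic r).ncard = r + 1 := by
        rw [Set.ncard_eq_toFinset_card']; simp
      rw [hIic] at hcount
      have hC' := hC (4 * r)
      have h5 : {w : Wg Γ | w ∈ N ∧ w ∈ Bl (gens Set.univ) (2 * r)}.ncard * (r + 1) ≤
          (4 * C) * (r + 1) := by
        calc _ ≤ _ := hcount
          _ ≤ C * (4 * r + 1) := hC'
          _ ≤ (4 * C) * (r + 1) := by nlinarith
      exact Nat.le_of_mul_le_mul_right h5 (Nat.succ_pos r)
    by_contra hinf'
    obtain ⟨A, hA, hAc⟩ := Set.Infinite.exists_subset_card_eq hinf' (4 * C + 1)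
    choose m hm using fun w : Wg Γ => GP.exists_Bl w
    have hsub : (A : Set (Wg Γ)) ⊆ {w : Wg Γ | w ∈ N ∧ w ∈ Bl (gens Set.univ) (2 * (A.sup m))} := by
      intro w hw
      refine ⟨hA hw, Bl_mono ?_ (hm w)⟩
      have : m w ≤ A.sup m := Finset.le_sup (f := m) hw
      omega
    have hle := Set.ncard_le_ncard hsub ((Bl_finite hgfin _).subset (fun w hw => hw.2))
    rw [Set.ncard_coe_finset, hAc] at hle
    have := hbound (A.sup m)
    omega
  have : Finite N := hNfin
  -- transitivity
  have horb : MulAction.orbit N e = {e' | Z.ln e' = ω} := by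
    ext e'
    constructor
    · rintro ⟨w, rfl⟩
      show Z.ln (w.1 • e) = ω
      rw [Z.ln_smul]
      exact w.2.1
    · intro he'
      obtain ⟨w, hw⟩ := htr e e' rfl he'
      have hwω : w • ω = ω := by
        have := congrArg Z.ln hw
        rw [Z.ln_smul] at this
        rw [this]; exact he'
      set d := retr {u, v} w with hd
      have hdm : d ∈ (sub {u, v} : Subgroup (Wg Γ)) := retr_mem _ _
      have hn : w * d⁻¹ ∈ N := by
        constructor
        · show (w * d⁻¹) • ω = ω
          rw [mul_smul, hDω _ (inv_mem hdm), hwω]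
        · show retr {u, v} (w * d⁻¹) = 1
          rw [map_mul, map_inv, ← hd, retr_eq_self hdm, mul_inv_cancel]
      refine ⟨⟨w * d⁻¹, hn⟩, ?_⟩
      show (w * d⁻¹) • e = e'
      rw [mul_smul, hDe _ (inv_mem hdm), hw]
  have hcard : (MulAction.orbit N e).ncard = Par.p ∨ (MulAction.orbit N e).ncard = Par.q := by
    rw [horb]; exact Z.fiber ω
  have hdvd : (MulAction.orbit N e).ncard ∣ Nat.card N := by
    rw [← MulAction.index_stabilizer]
    exact Subgroup.index_dvd_card _
  have hNT := NT_racg (Nat.card V) V Γ rfl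
  have key : ∀ p : ℕ, p.Prime → Odd p → p ∣ Nat.card N → False := by
    intro p hp hodd hdiv
    have : Fact p.Prime := ⟨hp⟩
    obtain ⟨x, hx⟩ := exists_prime_orderOf_dvd_card' p hdiv
    have hx1 : (x : Wg Γ) ^ p = 1 := by
      have : x ^ p = 1 := by rw [← hx]; exact pow_orderOf_eq_one x
      have := congrArg Subtype.val this
      simpa using this
    have hx2 := hNT _ p hodd hx1
    have hx3 : x = 1 := Subtype.ext hx2
    rw [hx3, orderOf_one] at hx
    exact hp.one_lt.ne hx
  have hpow : ∃ k, Nat.card N = 2 ^ k := by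
    refine ⟨_, Nat.eq_prime_pow_of_unique_prime_dvd Nat.card_pos.ne' ?_⟩
    intro d hd hdiv
    rcases hd.eq_two_or_odd' with h | h
    · exact h
    · exact (key d hd h hdiv).elim
  obtain ⟨k, hk⟩ := hpow
  rw [hk] at hdvd
  obtain ⟨j, -, hj⟩ := (Nat.dvd_prime_pow Nat.prime_two).mp hdvd
  rcases hcard with h | h
  · exact Par.np j (h.symm.trans hj)
  · exact Par.nq j (h.symm.trans hj)

end Racg

end Pool.Agent.KS6_39.RB
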