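import Pool.Agent.KS6_39.RB.Iso

set_option autoImplicit false

/-!
# The example: a graph on twelve vertices and its system of lines
-/

namespace Pool.Agent.KS6_39.RB

open Multiplicative

/-- Two different natural numbers which are not powers of two. -/
class Par where
  p : ℕ
  q : ℕ
  hp : p ≠ 0
  hq : q ≠ 0
  hne : p ≠ q
  np : ∀ k : ℕ, p ≠ 2 ^ k
  nq : ∀ k : ℕ, q ≠ 2 ^ k

theorem Par.two_lt (m : ℕ) (h0 : m ≠ 0) (h : ∀ k : ℕ, m ≠ 2 ^ k) : 3 ≤ m := by
  have h1 := h 0
  have h2 := h 1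
  norm_num at h1 h2
  omega

section

variable [Par]

/-- A system of lines in a finitely generated group. -/
structure LS (G : Type) [Group G] (S : Set G) where
  Λ : Type
  c : Λ → Set G
  pg : Λ → G → G
  finS : S.Finite
  invS : ∀ x ∈ S, x⁻¹ ∈ S
  genS : Subgroup.closure S = ⊤
  edge : ∀ ω g, g ∉ c ω → ∀ x ∈ S, pg ω (g * x) = pg ω g
  iso : ∀ ω ω' m, c ω ⊆ nb S (c ω') m → ω = ω'
  lin : ∃ C, ∀ ω, Lin S C (c ω)
  deep : ∀ ω g m, ∃ g', pg ω g' = pg ω g ∧ g' ∉ nb S (c ω) m
  on : ∀ ω g, ∃ g' ∈ c ω, pg ω g' = pg ω g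
  cst : ∀ ω ω', ω ≠ ω' → ∀ g ∈ c ω, ∀ g' ∈ c ω, pg ω' g = pg ω' g'
  sepr : ∀ m a b, a ≠ m → b ≠ m → ∀ ga ∈ c a, ∀ gb ∈ c b, ∀ gm ∈ c m,
    pg m ga ≠ pg m gb → pg a gm = pg a gb
  color : ∀ C, ∃ R, ∀ L, Lin S C L → ∀ (K : Type) (χ : G → K),
    (∀ g, ∀ x ∈ S, g ∉ L → g * x ∉ L → χ (g * x) = χ g) →
    ((∀ ω, ¬ c ω ⊆ nb S L R) → ∀ g g', g ∉ nb S L R → g' ∉ nb S L R → χ g = χ g') ∧
    (∀ ω', (∀ ω, c ω ⊆ nb S L R → ω = ω') → ∃ γ : G → K, ∀ g, g ∉ nb S L R → χ g = γ (pg ω' g))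
  val : ∀ ω, (Set.range (pg ω)).ncard = Par.p ∨ (Set.range (pg ω)).ncard = Par.q
  both : ∀ g, ∃ ω ω', g ∈ c ω ∧ g ∈ c ω' ∧ (Set.range (pg ω)).ncard = Par.p ∧
    (Set.range (pg ω')).ncard = Par.q
  seps : ∀ g g', {ω | pg ω g ≠ pg ω g'}.Finite
  meet : ∀ g, {ω | g ∈ c ω}.Finite

end

namespace Ex

/-- The twelve vertices: `inl (false, j)` (five of them), `inl (true, j)` (five of them), and the two
special ones `inr false`, `inr true`. -/
abbrev Vx : Type := (Bool × Fin 5) ⊕ Bool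

/-- The index attached to a special vertex. -/
def ix (i : Bool) : Fin 5 := if i then 1 else 0

/-- Adjacency. -/
def adj : Vx → Vx → Bool
  | Sum.inl (b, j), Sum.inl (b', j') => (b != b') && !((j == j') && (j == 0 || j == 1))
  | Sum.inl (_, j), Sum.inr i => j == ix i
  | Sum.inr i, Sum.inl (_, j) => j == ix i
  | Sum.inr _, Sum.inr _ => false

/-- The graph. -/
def Γ : SimpleGraph Vx where
  Adj a b := adj a b = true
  symm := by
    constructor
    intro a b
    revert a b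
    decide
  loopless := by
    constructor
    intro a
    revert a
    decide

instance : DecidableRel Γ.Adj := fun a b => inferInstanceAs (Decidable (adj a b = true))

open GP CG

/-- special vertices -/
abbrev uu (i : Bool) : Vx := Sum.inl (false, ix i)
abbrev vv (i : Bool) : Vx := Sum.inl (true, ix i)
abbrev ww (i : Bool) : Vx := Sum.inr i

/-- The star of a special vertex. -/
def T (i : Bool) : Set Vx := insert (ww i) {uu i, vv i}

theorem mem_T {i : Bool} {z : Vx} : z ∈ T i ↔ (z = ww i ∨ z = uu i ∨ z = vv i) := Iff.rfl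

theorem st_ww (i : Bool) : st Γ (ww i) = T i := by
  ext z
  show (z = ww i ∨ adj (ww i) z = true) ↔ (z = ww i ∨ z = uu i ∨ z = vv i)
  revert z i
  decide

theorem st_inter (i : Bool) : st Γ (uu i) ∩ st Γ (vv i) = {ww i} := by
  ext z
  show ((z = uu i ∨ adj (uu i) z = true) ∧ (z = vv i ∨ adj (vv i) z = true)) ↔ z = ww i
  revert z i
  decide

theorem uu_ne_vv (i : Bool) : uu i ≠ vv i := by revert i; decide
theorem not_adj (i : Bool) : ¬ Γ.Adj (uu i) (vv i) := by revert i; decide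
theorem adj_wu (i : Bool) : Γ.Adj (ww i) (uu i) := by revert i; decide
theorem adj_wv (i : Bool) : Γ.Adj (ww i) (vv i) := by revert i; decide

theorem hT (i : Bool) : ∀ x ∈ ({uu i, vv i} : Set Vx), Γ.Adj (ww i) x := by
  rintro x (rfl | hx)
  · exact adj_wu i
  · rw [Set.mem_singleton_iff] at hx; subst hx; exact adj_wv i

def X : Set Vx := {z | ∃ j, z = Sum.inl (false, j)}
def Y : Set Vx := {z | ∃ j, z = Sum.inl (true, j)}
def X0 : Set Vx := {z | z = Sum.inl (false, 2) ∨ z = Sum.inl (false, 3) ∨ z = Sum.inl (false, 4)}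
def Y0 : Set Vx := {z | z = Sum.inl (true, 2) ∨ z = Sum.inl (true, 3) ∨ z = Sum.inl (true, 4)}

theorem X0_sub : X0 ⊆ X := by
  rintro z (rfl | rfl | rfl)
  · exact ⟨2, rfl⟩
  · exact ⟨3, rfl⟩
  · exact ⟨4, rfl⟩

theorem Y0_sub : Y0 ⊆ Y := by
  rintro z (rfl | rfl | rfl)
  · exact ⟨2, rfl⟩
  · exact ⟨3, rfl⟩
  · exact ⟨4, rfl⟩

theorem adj1 : ∀ u ∈ X0, ∀ v ∈ Y, Γ.Adj u v := by
  rintro u (rfl | rfl | rfl) v ⟨j, rfl⟩ <;> revert j <;> decide

theorem adj2 : ∀ u ∈ X, ∀ v ∈ Y0, Γ.Adj u v := by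
  rintro u ⟨j, rfl⟩ v (rfl | rfl | rfl) <;> revert j <;> decide

theorem cases_vx (z : Vx) : z ∈ X ∪ Y ∨ ∃ i, z = ww i := by
  rcases z with ⟨b, j⟩ | i
  · left
    cases b
    · exact Or.inl ⟨j, rfl⟩
    · exact Or.inr ⟨j, rfl⟩
  · exact Or.inr ⟨i, rfl⟩

variable [Par]

/-- The orders of the vertex groups. -/
def ord : Vx → ℕ
  | Sum.inl _ => 2
  | Sum.inr false => Par.p
  | Sum.inr true => Par.q

/-- The group. -/
abbrev G : Type := CG Γ ord

theorem ord_uu (i : Bool) : ord (uu i) = 2 := rfl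
theorem ord_vv (i : Bool) : ord (vv i) = 2 := rfl

theorem ord_ne_zero (z : Vx) : ord z ≠ 0 := by
  rcases z with z | i
  · exact (by decide : (2 : ℕ) ≠ 0)
  · cases i
    · exact Par.hp
    · exact Par.hq

instance : ∀ v, Finite (Multiplicative (ZMod (ord v))) := by
  intro v
  have : NeZero (ord v) := ⟨ord_ne_zero v⟩
  exact inferInstanceAs (Finite (ZMod (ord v)))

/-- The generating set. -/
abbrev S : Set G := gens Set.univ

theorem S_finite : S.Finite := gens_finite _

/-- The coset of the line subgroup. -/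
def ls (i : Bool) (g : G) : Set G := {y | g⁻¹ * y ∈ (sub (T i) : Subgroup G)}

/-- Lines. -/
def Lam : Type := {p : Bool × Set G // ∃ g, p.2 = ls p.1 g}

/-- The line of type `i` through `g`. -/
def line (i : Bool) (g : G) : Lam := ⟨(i, ls i g), g, rfl⟩

theorem mem_ls {i : Bool} {g y : G} : y ∈ ls i g ↔ g⁻¹ * y ∈ (sub (T i) : Subgroup G) := Iff.rfl

theorem self_mem_ls (i : Bool) (g : G) : g ∈ ls i g := by
  rw [mem_ls, inv_mul_cancel]; exact one_mem _

theorem mem_lam {ω : Lam} {g y : G} (hg : g ∈ ω.1.2) :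
    y ∈ ω.1.2 ↔ g⁻¹ * y ∈ (sub (T ω.1.1) : Subgroup G) := by
  obtain ⟨⟨i, s⟩, h, hs⟩ := ω
  simp only at hs
  subst hs
  simp only at hg ⊢
  rw [mem_ls] at hg ⊢
  have : h⁻¹ * y = (h⁻¹ * g) * (g⁻¹ * y) := by group
  rw [this]
  exact Subgroup.mul_mem_cancel_left _ hg

theorem lam_nonempty (ω : Lam) : ∃ g, g ∈ ω.1.2 := by
  obtain ⟨⟨i, s⟩, h, hs⟩ := ω
  simp only at hs
  subst hs
  exact ⟨h, self_mem_ls i h⟩

theorem lam_ext {ω ω' : Lam} (h : ω.1.1 = ω'.1.1) {g : G} (hg : g ∈ ω.1.2) (hg' : g ∈ ω'.1.2) :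
    ω = ω' := by
  apply Subtype.ext
  apply Prod.ext h
  ext y
  rw [mem_lam hg, mem_lam hg', h]

theorem lam_inv (ω : Lam) : ∀ z ∈ st Γ (ww ω.1.1), ∀ (x : Multiplicative (ZMod (ord z))) (g : G),
    g * of z x ∈ ω.1.2 ↔ g ∈ ω.1.2 := by
  obtain ⟨⟨i, s⟩, h, hs⟩ := ω
  simp only at hs
  subst hs
  intro z hz x g
  simp only at hz ⊢
  rw [mem_ls, mem_ls, ← mul_assoc]
  rw [st_ww] at hz
  exact Subgroup.mul_mem_cancel_right _ (of_mem_sub (A := fun v => Multiplicative (ZMod (ord v))) hz x)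

open Classical in
theorem exists_pg (ω : Lam) : ∃ H : G → G,
      (∀ g (x : Multiplicative (ZMod (ord (ww ω.1.1)))), g ∈ ω.1.2 → H (g * of (ww ω.1.1) x) = H g * of (ww ω.1.1) x) ∧
      (∀ g (z : Vx) (x : Multiplicative (ZMod (ord z))), (z ≠ ww ω.1.1 ∨ g ∉ ω.1.2) → H (g * of z x) = H g) := by
  obtain ⟨H, -, H2, H3⟩ := exists_wall (Γ := Γ) (A := fun v => Multiplicative (ZMod (ord v)))
    (ww ω.1.1) ω.1.2 (lam_inv ω)
  refine ⟨H, ?_, ?_⟩
  · intro g x hg
    rw [H2, if_pos hg]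
  · intro g z x h
    by_cases hz : z = ww ω.1.1
    · subst hz
      rw [H2, if_neg (h.resolve_left (by simp)), mul_one]
    · exact H3 z hz g x

/-- The page function. -/
noncomputable def pg (ω : Lam) : G → G := (exists_pg ω).choose

theorem pg_w (ω : Lam) {g : G} (x : Multiplicative (ZMod (ord (ww ω.1.1)))) (hg : g ∈ ω.1.2) :
    pg ω (g * of (ww ω.1.1) x) = pg ω g * of (ww ω.1.1) x := (exists_pg ω).choose_spec.1 g x hg

theorem pg_o (ω : Lam) {g : G} {z : Vx} (x : Multiplicative (ZMod (ord z)))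
    (h : z ≠ ww ω.1.1 ∨ g ∉ ω.1.2) : pg ω (g * of z x) = pg ω g := (exists_pg ω).choose_spec.2 g z x h

theorem edge (ω : Lam) (g : G) (hg : g ∉ ω.1.2) : ∀ x ∈ S, pg ω (g * x) = pg ω g := by
  rintro _ ⟨z, -, x, rfl⟩
  exact pg_o ω x (Or.inr hg)

/-- Walking to a line. -/
theorem reach (ω : Lam) {P : G → Prop} (hstep : ∀ g, g ∉ ω.1.2 → P g → ∀ x ∈ S, P (g * x))
    {g : G} (hg : P g) : ∃ h ∈ ω.1.2, P h := by
  obtain ⟨h0, hh0⟩ := lam_nonempty ω
  obtain ⟨n, hn⟩ := exists_Bl (g⁻¹ * h0)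
  induction n generalizing g with
  | zero =>
    rw [Bl_zero] at hn
    have : g = h0 := by
      have := Set.mem_singleton_iff.mp hn
      exact (inv_mul_eq_one.mp this)
    subst this
    exact ⟨g, hh0, hg⟩
  | succ n ih =>
    by_cases hgω : g ∈ ω.1.2
    · exact ⟨g, hgω, hg⟩
    rcases Bl_succ' hn with h | ⟨a, ha, x, hx, e⟩
    · exact ih hg h
    · refine ih (hstep g hgω hg x hx) ?_
      have : (g * x)⁻¹ * h0 = a := by
        rw [mul_inv_rev, mul_assoc, e]; group
      rw [this]; exact ha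

theorem on (ω : Lam) (g : G) : ∃ g' ∈ ω.1.2, pg ω g' = pg ω g :=
  reach ω (P := fun p => pg ω p = pg ω g) (fun p hp hp' x hx => by rw [edge ω p hp x hx, hp']) rfl

/-- The page function on the line. -/
theorem pg_line (ω : Lam) {g : G} (hg : g ∈ ω.1.2) {d : G}
    (hd : d ∈ (sub {uu ω.1.1, vv ω.1.1} : Subgroup G)) : g * d ∈ ω.1.2 ∧ pg ω (g * d) = pg ω g := by
  constructor
  · rw [mem_lam hg]
    have : g⁻¹ * (g * d) = d := by group
    rw [this]
    exact sub_mono (by intro z hz; exact Or.inr hz) hd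
  · refine sub_induction (p := fun d => pg ω (g * d) = pg ω g) hd (by simp) ?_
    intro d z x hz _ ih
    rw [← mul_assoc, pg_o ω x, ih]
    left
    rintro rfl
    have : ∀ i : Bool, ¬ (ww i = uu i ∨ ww i = vv i) := by decide
    exact this _ hz

theorem line_decomp (ω : Lam) {g h : G} (hg : g ∈ ω.1.2) (hh : h ∈ ω.1.2) :
    ∃ d ∈ (sub {uu ω.1.1, vv ω.1.1} : Subgroup G), ∃ x : Multiplicative (ZMod (ord (ww ω.1.1))),
      h = g * d * of (ww ω.1.1) x ∧ pg ω h = pg ω g * of (ww ω.1.1) x := by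
  have h1 := (mem_lam hg).mp hh
  have h2 := decomp (hT ω.1.1) h1
  obtain ⟨x, hx⟩ := sub_singleton (retr_mem {ww ω.1.1} (g⁻¹ * h))
  rw [hx] at h2
  have h3 : h = g * retr {uu ω.1.1, vv ω.1.1} (g⁻¹ * h) * of (ww ω.1.1) x := by
    rw [mul_assoc, ← h2]; group
  refine ⟨_, retr_mem _ _, x, h3, ?_⟩
  have h4 := pg_line ω hg (retr_mem {uu ω.1.1, vv ω.1.1} (g⁻¹ * h))
  calc pg ω h = pg ω (g * retr {uu ω.1.1, vv ω.1.1} (g⁻¹ * h) * of (ww ω.1.1) x) := by rw [← h3]
    _ = _ := by rw [pg_w ω x h4.1, h4.2]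

theorem range_pg (ω : Lam) {g : G} (hg : g ∈ ω.1.2) :
    Set.range (pg ω) = Set.range (fun x : Multiplicative (ZMod (ord (ww ω.1.1))) =>
      pg ω g * of (ww ω.1.1) x) := by
  ext p
  constructor
  · rintro ⟨h, rfl⟩
    obtain ⟨h', hh', e⟩ := on ω h
    obtain ⟨d, -, x, -, e2⟩ := line_decomp ω hg hh'
    exact ⟨x, by rw [← e, e2]⟩
  · rintro ⟨x, rfl⟩
    exact ⟨_, pg_w ω x hg⟩

theorem val_eq (ω : Lam) : (Set.range (pg ω)).ncard = ord (ww ω.1.1) := by
  obtain ⟨g, hg⟩ := lam_nonempty ω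
  rw [range_pg ω hg, ← Set.image_univ, Set.ncard_image_of_injective, Set.ncard_univ]
  · exact Nat.card_zmod _
  · intro x y h
    exact of_injective (Γ := Γ) (A := fun v => Multiplicative (ZMod (ord v))) _ (mul_left_cancel h)

theorem val (ω : Lam) : (Set.range (pg ω)).ncard = Par.p ∨ (Set.range (pg ω)).ncard = Par.q := by
  rw [val_eq]
  cases ω.1.1
  · left; rfl
  · right; rfl

theorem both (g : G) : ∃ ω ω' : Lam, g ∈ ω.1.2 ∧ g ∈ ω'.1.2 ∧ (Set.range (pg ω)).ncard = Par.p ∧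
    (Set.range (pg ω')).ncard = Par.q :=
  ⟨line false g, line true g, self_mem_ls _ _, self_mem_ls _ _, val_eq _, val_eq _⟩

theorem meet (g : G) : {ω : Lam | g ∈ ω.1.2}.Finite := by
  have : {ω : Lam | g ∈ ω.1.2} ⊆ {line false g, line true g} := by
    intro ω hω
    have hω' : g ∈ ω.1.2 := hω
    by_cases h : ω.1.1 = false
    · left
      exact lam_ext (ω' := line false g) h hω' (self_mem_ls _ _)
    · right
      have h' : ω.1.1 = true := by simpa using h
      exact lam_ext (ω' := line true g) h' hω' (self_mem_ls _ _)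
  exact (Set.toFinite _).subset this

theorem seps (g g' : G) : {ω : Lam | pg ω g ≠ pg ω g'}.Finite := by
  have key : ∀ e : G, {ω : Lam | pg ω g ≠ pg ω (g * e)}.Finite := by
    intro e
    induction e using induction_right with
    | h1 => simp
    | hm e z x ih =>
      refine (ih.union (meet (g * e))).subset ?_
      intro ω hω
      by_contra h
      simp only [Set.mem_union, not_or] at h
      obtain ⟨h1, h2⟩ := h
      have h1' : pg ω g = pg ω (g * e) := by
        by_contra hh; exact h1 hh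
      apply hω
      rw [← mul_assoc, pg_o ω x (Or.inr h2)]
      exact h1'
  have := key (g⁻¹ * g')
  rwa [mul_inv_cancel_left] at this

theorem cst (ω ω' : Lam) (hne : ω ≠ ω') : ∀ g ∈ ω.1.2, ∀ g' ∈ ω.1.2, pg ω' g = pg ω' g' := by
  intro g hg g' hg'
  have h1 := (mem_lam hg).mp hg'
  have key : ∀ e ∈ (sub (T ω.1.1) : Subgroup G), pg ω' (g * e) = pg ω' g := by
    intro e he
    refine sub_induction (p := fun e => pg ω' (g * e) = pg ω' g) he (by simp) ?_
    intro e z x hz he' ih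
    rw [← mul_assoc, pg_o ω' x, ih]
    by_cases hz' : z = ww ω'.1.1
    · right
      intro hin
      apply hne
      have hi : ω.1.1 = ω'.1.1 := by
        subst hz'
        have : ∀ i j : Bool, (ww j = ww i ∨ ww j = uu i ∨ ww j = vv i) → i = j := by decide
        exact this _ _ hz
      refine lam_ext hi (g := g * e) ?_ hin
      rw [mem_lam hg]
      have : g⁻¹ * (g * e) = e := by group
      rw [this]; exact he'
    · exact Or.inl hz'
  have := key _ h1
  rw [mul_inv_cancel_left] at this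
  exact this.symm

theorem sepr (m a b : Lam) (ham : a ≠ m) (_hbm : b ≠ m) (ga : G) (hga : ga ∈ a.1.2) (gb : G)
    (_hgb : gb ∈ b.1.2) (gm : G) (hgm : gm ∈ m.1.2) (h : pg m ga ≠ pg m gb) :
    pg a gm = pg a gb := by
  obtain ⟨h', hh', e1, e2⟩ := reach m (P := fun p => pg m p = pg m gb ∧ pg a p = pg a gb)
    (g := gb) (by
      rintro p hp ⟨e1, e2⟩ x hx
      refine ⟨by rw [edge m p hp x hx, e1], ?_⟩
      rw [edge a p ?_ x hx, e2]
      intro hpa
      apply h
      rw [← e1]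
      exact cst a m ham ga hga p hpa) ⟨rfl, rfl⟩
  rw [← e2]
  exact cst m a ham.symm gm hgm h' hh'

theorem isol (ω ω' : Lam) (m : ℕ) (h : ω.1.2 ⊆ nb S ω'.1.2 m) : ω = ω' := by
  obtain ⟨g, hg⟩ := lam_nonempty ω
  obtain ⟨g', hg'⟩ := lam_nonempty ω'
  have hd : ∀ d ∈ (sub {uu ω.1.1, vv ω.1.1} : Subgroup G), g * d ∈ ω.1.2 :=
    fun d hd => (pg_line ω hg hd).1
  by_cases hi : ω.1.1 = ω'.1.1
  · refine lam_ext hi hg ?_
    rw [mem_lam hg', ← hi]
    apply iso_same (uu_ne_vv _) (not_adj _) (ord_uu _) (ord_vv _) (adj_wu _) (adj_wv _) (st_inter _)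
      (m := m)
    intro d hd'
    obtain ⟨b, hb, hb'⟩ := h (hd d hd')
    refine ⟨b, hb, ?_⟩
    have h2 := (mem_lam hg').mp hb'
    rw [← hi] at h2
    have : g'⁻¹ * g * d * b = g'⁻¹ * (g * d * b) := by group
    rw [this]; exact h2
  · exfalso
    refine iso_diff (Γ := Γ) (n := ord) (T := T ω'.1.1) (g := g) (h := g') (m := m) (uu_ne_vv ω.1.1)
      (not_adj _) (ord_uu _) (ord_vv _) ?_ ?_
    · have : ∀ i j : Bool, i ≠ j → ¬ (uu i = ww j ∨ uu i = uu j ∨ uu i = vv j) ∧
          ¬ (vv i = ww j ∨ vv i = uu j ∨ vv i = vv j) := by decide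
      exact this _ _ hi
    · intro d hd'
      obtain ⟨b, hb, hb'⟩ := h (hd d hd')
      exact ⟨b, hb, (mem_lam hg').mp hb'⟩

theorem deep (ω : Lam) (g : G) (m : ℕ) : ∃ g', pg ω g' = pg ω g ∧ g' ∉ nb S ω.1.2 m := by
  obtain ⟨h, hh, e⟩ := on ω g
  let a : Vx := Sum.inl (false, 2)
  let b : Vx := Sum.inl (false, 3)
  have hab : a ≠ b := by decide
  have hadj : ¬ Γ.Adj a b := by decide
  obtain ⟨φ, h1, h2, h3⟩ := exists_dihedral (Γ := Γ) (n := ord) hab hadj rfl rfl
  refine ⟨h * (gen Γ ord a * gen Γ ord b) ^ (m + 1), ?_, ?_⟩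
  · rw [← e]
    have : ∀ k : ℕ, pg ω (h * (gen Γ ord a * gen Γ ord b) ^ k) = pg ω h := by
      intro k
      induction k with
      | zero => simp
      | succ k ih =>
        rw [pow_succ, ← mul_assoc, ← mul_assoc]
        have na : a ≠ ww ω.1.1 := by simp [a]
        have nb' : b ≠ ww ω.1.1 := by simp [b]
        unfold gen at ih ⊢
        rw [pg_o ω _ (Or.inl nb'), pg_o ω _ (Or.inl na), ih]
    exact this _
  · rintro ⟨β, hβ, hin⟩
    have e1 := (mem_lam hh).mp hin
    have e2 : h⁻¹ * (h * (gen Γ ord a * gen Γ ord b) ^ (m + 1) * β) =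
        (gen Γ ord a * gen Γ ord b) ^ (m + 1) * β := by group
    rw [e2] at e1
    have hker : ∀ y ∈ (sub (T ω.1.1) : Subgroup G), φ y = 1 := by
      intro y hy
      refine sub_induction (p := fun y => φ y = 1) hy (map_one _) ?_
      intro y z x hz _ ih
      have hz' : z ≠ a ∧ z ≠ b := by
        have : ∀ (i : Bool) (z : Vx), (z = ww i ∨ z = uu i ∨ z = vv i) →
          z ≠ Sum.inl (false, 2) ∧ z ≠ Sum.inl (false, 3) := by decide
        exact this _ _ hz
      rw [map_mul, ih, h3 z hz'.1 hz'.2, one_mul]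
    have e3 := hker _ e1
    have e4 := dih_bound (Γ := Γ) (n := ord) (u := a) (v := b) rfl rfl h1 h2 h3 hβ
    have e5 : φ ((gen Γ ord a * gen Γ ord b) ^ (m + 1) * β) 0 = 0 := by rw [e3]; rfl
    rw [map_mul, Equiv.Perm.mul_apply, ← zpow_natCast, dih_zpow h1 h2] at e5
    push_cast at e5
    have : φ β 0 = m + 1 := by omega
    rw [this, abs_of_nonneg (by omega)] at e4
    omega

/-- Elements of the line subgroup in a ball. -/
theorem ball_T (i : Bool) {k : ℕ} {e : G} (he : e ∈ Bl (gens (T i)) k) :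
    ∃ j : ℤ, |j| ≤ k ∧ ∃ ε : Bool, ∃ x : Multiplicative (ZMod (ord (ww i))),
      e = (gen Γ ord (uu i) * gen Γ ord (vv i)) ^ j * (if ε then gen Γ ord (uu i) else 1) *
        of (ww i) x := by
  induction k generalizing e with
  | zero =>
    rw [Bl_zero] at he
    rw [Set.mem_singleton_iff.mp he]
    exact ⟨0, by simp, false, 1, by simp⟩
  | succ k ih =>
    rcases Bl_succ he with h | ⟨a, ha, y, ⟨z, hz, x, rfl⟩, rfl⟩
    · obtain ⟨j, hj, ε, x, e1⟩ := ih h
      exact ⟨j, by push_cast; omega, ε, x, e1⟩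
    · obtain ⟨j, hj, ε, x', rfl⟩ := ih ha
      rcases hz with rfl | rfl | hz
      · refine ⟨j, by push_cast; omega, ε, x' * x, ?_⟩
        rw [map_mul]; simp only [mul_assoc]
      · have hc : (of (ww i) x' : G) * of (uu i) x = of (uu i) x * of (ww i) x' :=
          of_comm (A := fun v => Multiplicative (ZMod (ord v))) (adj_wu i) x' x
        rw [mul_assoc, hc, ← mul_assoc]
        rcases of_cases (Γ := Γ) (ord_uu i) x with h | h
        · rw [h, mul_one]
          exact ⟨j, by push_cast; omega, ε, x', rfl⟩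
        · rw [h]
          refine ⟨j, by push_cast; omega, !ε, x', ?_⟩
          cases ε
          · simp
          · have := gen_mul_self (Γ := Γ) (ord_uu i)
            simp [mul_assoc, this]
      · rw [Set.mem_singleton_iff] at hz
        subst hz
        have hc : (of (ww i) x' : G) * of (vv i) x = of (vv i) x * of (ww i) x' :=
          of_comm (A := fun v => Multiplicative (ZMod (ord v))) (adj_wv i) x' x
        rw [mul_assoc, hc, ← mul_assoc]
        rcases of_cases (Γ := Γ) (ord_vv i) x with h | h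
        · rw [h, mul_one]
          exact ⟨j, by push_cast; omega, ε, x', rfl⟩
        · rw [h]
          cases ε
          · refine ⟨j - 1, ?_, true, x', ?_⟩
            · rw [abs_le] at hj ⊢; push_cast; constructor <;> omega
            · have h1 := gen_mul_self (Γ := Γ) (ord_uu i)
              have h2 := gen_inv (Γ := Γ) (ord_uu i)
              have h3 := gen_inv (Γ := Γ) (ord_vv i)
              simp only [Bool.false_eq_true, if_false, if_true, mul_one]
              rw [zpow_sub_one, mul_inv_rev, h2, h3, mul_assoc _ (gen Γ ord (vv i) * gen Γ ord (uu i)),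
                mul_assoc (gen Γ ord (vv i)), h1, mul_one]
          · refine ⟨j + 1, ?_, false, x', ?_⟩
            · rw [abs_le] at hj ⊢; push_cast; constructor <;> omega
            · simp only [Bool.false_eq_true, if_false, if_true, mul_one]
              rw [zpow_add_one, mul_assoc _ (gen Γ ord (uu i))]

theorem lin (ω : Lam) : Lin S (8 * (Par.p + Par.q)) ω.1.2 := by
  classical
  intro g m
  by_cases hne : {p | p ∈ ω.1.2 ∧ g⁻¹ * p ∈ Bl S m}.Nonempty
  · obtain ⟨p0, hp0, hp0'⟩ := hne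
    let F : ℤ × Bool × Multiplicative (ZMod (ord (ww ω.1.1))) → G := fun q =>
      p0 * ((gen Γ ord (uu ω.1.1) * gen Γ ord (vv ω.1.1)) ^ q.1 *
        (if q.2.1 then gen Γ ord (uu ω.1.1) else 1) * of (ww ω.1.1) q.2.2)
    let Q : Set (ℤ × Bool × Multiplicative (ZMod (ord (ww ω.1.1)))) :=
      (Set.Icc (-(2 * m : ℤ)) (2 * m)) ×ˢ (Set.univ ×ˢ Set.univ)
    have hsub : {p | p ∈ ω.1.2 ∧ g⁻¹ * p ∈ Bl S m} ⊆ F '' Q := by
      rintro p ⟨hp, hp'⟩
      have h1 := (mem_lam hp0).mp hp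
      have h2 : p0⁻¹ * p ∈ Bl S (m + m) := by
        have : p0⁻¹ * p = (g⁻¹ * p0)⁻¹ * (g⁻¹ * p) := by group
        rw [this]
        exact mul_mem_Bl (inv_mem_Bl (gens_inv _) hp0') hp'
      have h3 := retr_mem_Bl (T := T ω.1.1) h2
      rw [retr_eq_self h1] at h3
      obtain ⟨j, hj, ε, x, e⟩ := ball_T ω.1.1 h3
      refine ⟨(j, ε, x), ⟨?_, trivial, trivial⟩, ?_⟩
      · rw [abs_le] at hj
        push_cast at hj
        constructor <;> simp only <;> omega
      · simp only [F]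
        rw [← e]; group
    have hQf : Q.Finite := (Set.finite_Icc _ _).prod (Set.finite_univ.prod Set.finite_univ)
    have hQ : Q.ncard ≤ (4 * m + 1) * (2 * (Par.p + Par.q)) := by
      simp only [Q]
      rw [Set.ncard_prod, Set.ncard_prod]
      have e1 : (Set.Icc (-(2 * m : ℤ)) (2 * m)).ncard = 4 * m + 1 := by
        rw [Set.ncard_eq_toFinset_card', Set.toFinset_Icc, Int.card_Icc]
        omega
      have e2 : (Set.univ : Set Bool).ncard = 2 := by
        rw [Set.ncard_univ]; simp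
      have e3 : (Set.univ : Set (Multiplicative (ZMod (ord (ww ω.1.1))))).ncard ≤
          Par.p + Par.q := by
        rw [Set.ncard_univ]
        have : Nat.card (Multiplicative (ZMod (ord (ww ω.1.1)))) = ord (ww ω.1.1) := Nat.card_zmod _
        rw [this]
        cases ω.1.1
        · exact Nat.le_add_right _ _
        · exact Nat.le_add_left _ _
      rw [e1, e2]
      exact Nat.mul_le_mul_left _ (Nat.mul_le_mul_left _ e3)
    calc {p | p ∈ ω.1.2 ∧ g⁻¹ * p ∈ Bl S m}.ncard ≤ (F '' Q).ncard :=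
          Set.ncard_le_ncard hsub (hQf.image F)
      _ ≤ Q.ncard := Set.ncard_image_le hQf
      _ ≤ (4 * m + 1) * (2 * (Par.p + Par.q)) := hQ
      _ ≤ 8 * (Par.p + Par.q) * (m + 1) := by nlinarith [Nat.zero_le (Par.p + Par.q)]
  · rw [Set.not_nonempty_iff_eq_empty] at hne
    rw [hne]; simp

/-- A function constant off the line edges factors through the page function. -/
theorem factor (ω : Lam) {K : Type} {c : G → K}
    (c1 : ∀ g (z : Vx) (x : Multiplicative (ZMod (ord z))), z ∈ X ∪ Y → c (g * of z x) = c g)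
    (c2 : ∀ g i (x : Multiplicative (ZMod (ord (ww i)))), line i g ≠ ω → c (g * of (ww i) x) = c g)
    {g g' : G} (h : pg ω g = pg ω g') : c g = c g' := by
  have hr : ∀ g, ∃ h ∈ ω.1.2, pg ω h = pg ω g ∧ c h = c g := by
    intro g
    refine reach ω (P := fun p => pg ω p = pg ω g ∧ c p = c g) ?_ ⟨rfl, rfl⟩
    rintro p hp ⟨e1, e2⟩ x hx
    refine ⟨by rw [edge ω p hp x hx, e1], ?_⟩
    obtain ⟨z, -, y, rfl⟩ := hx
    rcases cases_vx z with hz | ⟨i, rfl⟩
    · rw [c1 p z y hz, e2]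
    · rw [c2 p i y, e2]
      rintro rfl
      exact hp (self_mem_ls i p)
  obtain ⟨h1, m1, e1, f1⟩ := hr g
  obtain ⟨h2, m2, e2, f2⟩ := hr g'
  obtain ⟨d, hd, x, e3, e4⟩ := line_decomp ω m1 m2
  have hx : (of (ww ω.1.1) x : G) = 1 := by
    rw [e1, e2, ← h] at e4
    exact mul_eq_left.mp e4.symm
  rw [hx, mul_one] at e3
  have hcd : c (h1 * d) = c h1 := by
    refine sub_induction (p := fun d => c (h1 * d) = c h1) hd (by simp) ?_
    intro d z y hz _ ih
    rw [← mul_assoc, c1 _ z y, ih]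
    rcases hz with rfl | hz
    · exact Or.inl ⟨_, rfl⟩
    · rw [Set.mem_singleton_iff] at hz; subst hz; exact Or.inr ⟨_, rfl⟩
  rw [← f1, ← f2, e3, hcd]

theorem color (C : ℕ) : ∃ R, ∀ L, Lin S C L → ∀ (K : Type) (χ : G → K),
    (∀ g, ∀ x ∈ S, g ∉ L → g * x ∉ L → χ (g * x) = χ g) →
    ((∀ ω : Lam, ¬ ω.1.2 ⊆ nb S L R) → ∀ g g', g ∉ nb S L R → g' ∉ nb S L R → χ g = χ g') ∧
    (∀ ω' : Lam, (∀ ω : Lam, ω.1.2 ⊆ nb S L R → ω = ω') →
      ∃ γ : G → K, ∀ g, g ∉ nb S L R → χ g = γ (pg ω' g)) := by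
  classical
  set k := 32 * C + 4 with hk
  refine ⟨2 * (k + 1) + 1, ?_⟩
  intro L hL K χ hχ
  have hoff : OffConst L χ := fun g v x h1 h2 => hχ g _ ⟨v, trivial, x, rfl⟩ h1 h2
  have hX := superlinear (Γ := Γ) (n := ord) ord_ne_zero (a := Sum.inl (false, 2))
    (b := Sum.inl (false, 3)) (c := Sum.inl (false, 4)) (by decide) (by decide) (by decide)
    (by decide) (by decide) (by decide) rfl rfl rfl (T := X0)
    ⟨Or.inl rfl, Or.inr (Or.inl rfl), Or.inr (Or.inr rfl)⟩ C k le_rfl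
  have hY := superlinear (Γ := Γ) (n := ord) ord_ne_zero (a := Sum.inl (true, 2))
    (b := Sum.inl (true, 3)) (c := Sum.inl (true, 4)) (by decide) (by decide) (by decide)
    (by decide) (by decide) (by decide) rfl rfl rfl (T := Y0)
    ⟨Or.inl rfl, Or.inr (Or.inl rfl), Or.inr (Or.inr rfl)⟩ C k le_rfl
  obtain ⟨c, c1, c2⟩ := exists_color X0_sub Y0_sub adj1 adj2 S_finite hX hY hL hoff
  have cfar : ∀ g, g ∉ nb S L (2 * (k + 1) + 1) → ∀ i (y : Multiplicative (ZMod (ord (ww i)))),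
      c (g * of (ww i) y) = χ g := by
    intro g hg i y
    have h1 : ∀ b ∈ Bl S (2 * (k + 1)), g * of (ww i) y * b ∉ L := by
      intro b hb hin
      apply hg
      refine ⟨of (ww i) y * b, ?_, by rw [← mul_assoc]; exact hin⟩
      rw [add_comm]
      exact mul_mem_Bl (gen_mem_Bl ⟨_, trivial, y, rfl⟩) hb
    rw [c1 _ h1]
    apply hoff
    · intro hin
      exact hg ⟨1, one_mem_Bl _ _, by rwa [mul_one]⟩
    · have := h1 1 (one_mem_Bl _ _)
      rwa [mul_one] at this
  have c3 : ∀ g i (x : Multiplicative (ZMod (ord (ww i)))),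
      ¬ (line i g).1.2 ⊆ nb S L (2 * (k + 1) + 1) → c (g * of (ww i) x) = c g := by
    intro g i x hnot
    rw [Set.not_subset] at hnot
    obtain ⟨p, hp, hpn⟩ := hnot
    obtain ⟨d, hd, y, e1, -⟩ := line_decomp (line i g) (g := g) (h := p) (self_mem_ls i g) hp
    change d ∈ (sub {uu i, vv i} : Subgroup G) at hd
    change Multiplicative (ZMod (ord (ww i))) at y
    change p = g * d * of (ww i) y at e1
    have hcd : ∀ q, c (q * d) = c q := by
      intro q
      refine sub_induction (p := fun d => c (q * d) = c q) hd (by simp) ?_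
      intro d z y hz _ ih
      rw [← mul_assoc, c2 _ z y, ih]
      rcases hz with rfl | hz
      · exact Or.inl ⟨_, rfl⟩
      · rw [Set.mem_singleton_iff] at hz; subst hz; exact Or.inr ⟨_, rfl⟩
    have hcomm : ∀ x' : Multiplicative (ZMod (ord (ww i))),
        (of (ww i) x' : G) * d = d * of (ww i) x' := by
      intro x'
      apply sub_comm (T := {ww i}) (T' := {uu i, vv i})
      · rintro a ha b hb
        rw [Set.mem_singleton_iff] at ha
        subst ha
        exact hT i b hb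
      · exact of_mem_sub (A := fun v => Multiplicative (ZMod (ord v))) (Set.mem_singleton _) x'
      · exact hd
    have e2 : g * of (ww i) x * d = p * of (ww i) (y⁻¹ * x) := by
      rw [mul_assoc, hcomm, e1, map_mul, map_inv]; group
    have e3 : g * d = p * of (ww i) y⁻¹ := by
      rw [e1, map_inv]; group
    calc c (g * of (ww i) x) = c (g * of (ww i) x * d) := (hcd _).symm
      _ = c (g * d) := by rw [e2, e3, cfar p hpn, cfar p hpn]
      _ = c g := hcd g
  have cdeep : ∀ g, g ∉ nb S L (2 * (k + 1) + 1) → c g = χ g := by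
    intro g hg
    have := cfar g hg false 1
    rwa [map_one, mul_one] at this
  constructor
  · intro hno
    have hconst : ∀ g, c g = c 1 := by
      intro g
      induction g using induction_right with
      | h1 => rfl
      | hm g z x ih =>
        rcases cases_vx z with hz | ⟨i, rfl⟩
        · rw [c2 g z x hz, ih]
        · rw [c3 g i x (hno _), ih]
    intro g g' hg hg'
    rw [← cdeep g hg, ← cdeep g' hg', hconst, hconst g']
  · intro ω' hω'
    have hf : ∀ g g', pg ω' g = pg ω' g' → c g = c g' := fun g g' h =>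
      factor ω' c2 (fun g i x hne => c3 g i x (fun hsub => hne (hω' _ hsub))) h
    refine ⟨fun p => if h : ∃ g, pg ω' g = p then c h.choose else c 1, ?_⟩
    intro g hg
    have h : ∃ g', pg ω' g' = pg ω' g := ⟨g, rfl⟩
    simp only [dif_pos h]
    rw [← cdeep g hg]
    exact (hf _ _ h.choose_spec).symm

/-- The line system of the example. -/
noncomputable def system : LS G S where
  Λ := Lam
  c := fun ω => ω.1.2
  pg := pg
  finS := S_finite
  invS := gens_inv _
  genS := closure_gens_univ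
  edge := edge
  iso := isol
  lin := ⟨8 * (Par.p + Par.q), lin⟩
  deep := deep
  on := on
  cst := cst
  sepr := sepr
  color := color
  val := val
  both := both
  seps := seps
  meet := meet

end Ex

end Pool.Agent.KS6_39.RB
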