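import Pool.Agent.KS6_39.RB.Fin

set_option autoImplicit false

/-!
# Graph products over the same graph with vertex groups of the same orders are isometric

For bijections `σ v : A v ≃ B v` we construct mutually inverse bijections between the graph
products of the groups `A v` and `B v` which map right cosets of the vertex groups to such cosets.
-/

namespace Pool.Agent.KS6_39.RB

namespace GP

variable {V : Type} {Γ : SimpleGraph V}

section one

variable {A : V → Type} [∀ v, Group (A v)]

open Classical in
/-- There are functions `s v : G → A v` which are equivariant for `A v`, and invariant under the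
vertex groups of the neighbours of `v`. -/
theorem exists_sections : ∃ s : ∀ v, GraphProd Γ A → A v,
    (∀ v g (x : A v), s v (g * of v x) = s v g * x) ∧
    (∀ u v, Γ.Adj u v → ∀ g (y : A u), s v (g * of u y) = s v g) := by
  let r : ∀ v, GraphProd Γ A → GraphProd Γ A := fun v g =>
    ((g : GraphProd Γ A ⧸ (sub (st Γ v) : Subgroup (GraphProd Γ A)))).out
  have hr : ∀ v g h, h ∈ (sub (st Γ v) : Subgroup (GraphProd Γ A)) → r v (g * h) = r v g := by
    intro v g h hh
    have : ((g * h : GraphProd Γ A) : GraphProd Γ A ⧸ (sub (st Γ v) : Subgroup (GraphProd Γ A))) =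
        (g : GraphProd Γ A ⧸ (sub (st Γ v) : Subgroup (GraphProd Γ A))) := by
      rw [eq_comm, QuotientGroup.eq, inv_mul_cancel_left]
      exact hh
    simp only [r, this]
  refine ⟨fun v g => proj v ((r v g)⁻¹ * g), ?_, ?_⟩
  · intro v g x
    show proj v ((r v (g * of v x))⁻¹ * (g * of v x)) = proj v ((r v g)⁻¹ * g) * x
    rw [hr v g _ (of_mem_sub (show v ∈ st Γ v from Or.inl rfl) x), ← mul_assoc, map_mul, proj_of]
  · intro u v h g y
    show proj v ((r v (g * of u y))⁻¹ * (g * of u y)) = proj v ((r v g)⁻¹ * g)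
    rw [hr v g _ (of_mem_sub (show u ∈ st Γ v from Or.inr h.symm) y), ← mul_assoc, map_mul]
    have : proj v (of u y : GraphProd Γ A) = 1 := by
      have hne : ¬ u = v := fun e => Γ.loopless.irrefl v (e ▸ h)
      simp [proj, hne]
    rw [this, mul_one]

end one

section two

variable {A B : V → Type} [∀ v, Group (A v)] [∀ v, Group (B v)]

/-- The map attached to a system of sections. -/
theorem exists_map (σ : ∀ v, A v ≃ B v) (s : ∀ v, GraphProd Γ A → A v)
    (hs1 : ∀ v g (x : A v), s v (g * of v x) = s v g * x)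
    (hs2 : ∀ u v, Γ.Adj u v → ∀ g (y : A u), s v (g * of u y) = s v g) :
    ∃ F : GraphProd Γ B → GraphProd Γ A, F 1 = 1 ∧ ∀ k v (b : B v),
      F (k * of v b) = F k * of v ((s v (F k))⁻¹ * (σ v).symm (σ v (s v (F k)) * b)) := by
  classical
  let act : ∀ v, B v → GraphProd Γ A → GraphProd Γ A :=
    fun v b g => g * of v ((s v g)⁻¹ * (σ v).symm (σ v (s v g) * b))
  have hsact : ∀ v b g, s v (act v b g) = (σ v).symm (σ v (s v g) * b) := by
    intro v b g
    simp only [act]
    rw [hs1, mul_inv_cancel_left]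
  have hact1 : ∀ v g, act v 1 g = g := by
    intro v g; simp [act]
  have hactm : ∀ v (b c : B v) g, act v (b * c) g = act v c (act v b g) := by
    intro v b c g
    have h1 : act v c (act v b g) = act v b g *
        of v ((s v (act v b g))⁻¹ * (σ v).symm (σ v (s v (act v b g)) * c)) := rfl
    rw [h1, hsact]
    simp only [act, Equiv.apply_symm_apply]
    rw [mul_assoc g, ← map_mul]
    congr 2
    rw [mul_assoc, mul_inv_cancel_left, mul_assoc (σ v (s v g))]
  have hcomm : ∀ u v, Γ.Adj u v → ∀ (b : B u) (c : B v) g,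
      act u b (act v c g) = act v c (act u b g) := by
    intro u v h b c g
    have e1 : s u (act v c g) = s u g := hs2 v u h.symm g _
    have e2 : s v (act u b g) = s v g := hs2 u v h g _
    have h1 : act u b (act v c g) = act v c g *
        of u ((s u (act v c g))⁻¹ * (σ u).symm (σ u (s u (act v c g)) * b)) := rfl
    have h2 : act v c (act u b g) = act u b g *
        of v ((s v (act u b g))⁻¹ * (σ v).symm (σ v (s v (act u b g)) * c)) := rfl
    rw [h1, h2, e1, e2]
    simp only [act]
    rw [mul_assoc, mul_assoc, of_comm h]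
  let φ : ∀ v, B v →* (Equiv.Perm (GraphProd Γ A)) := fun v =>
    { toFun := fun b =>
        { toFun := act v b⁻¹
          invFun := act v b
          left_inv := by intro p; rw [← hactm]; simp [hact1]
          right_inv := by intro p; rw [← hactm]; simp [hact1] }
      map_one' := by ext1 p; simp [hact1]
      map_mul' := by
        intro x y
        ext1 p
        simp only [Equiv.coe_fn_mk, Equiv.Perm.mul_apply, mul_inv_rev]
        rw [hactm] }
  have hφ : ∀ v (b : B v) p, φ v b p = act v b⁻¹ p := fun v b p => rfl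
  let Φ : GraphProd Γ B →* Equiv.Perm (GraphProd Γ A) := lift φ (by
    intro u v h x y
    ext1 p
    simp only [Equiv.Perm.mul_apply, hφ]
    exact hcomm u v h _ _ _)
  have hΦ : ∀ v (b : B v) p, Φ (of v b) p = act v b⁻¹ p := by
    intro v b p
    simp only [Φ, lift_of]
    rfl
  refine ⟨fun k => Φ k⁻¹ 1, by simp, ?_⟩
  intro k v b
  show Φ (k * of v b)⁻¹ 1 = act v b (Φ k⁻¹ 1)
  rw [mul_inv_rev, map_mul, Equiv.Perm.mul_apply, ← map_inv, hΦ, inv_inv]

/-- Mutually inverse maps which move along the vertex groups. -/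
theorem exists_isometry (σ : ∀ v, A v ≃ B v) :
    ∃ (F : GraphProd Γ B → GraphProd Γ A) (E : GraphProd Γ A → GraphProd Γ B),
      (∀ g, F (E g) = g) ∧ (∀ k, E (F k) = k) ∧
      (∀ k v (b : B v), ∃ x : A v, F (k * of v b) = F k * of v x) ∧
      (∀ g v (x : A v), ∃ b : B v, E (g * of v x) = E g * of v b) := by
  obtain ⟨s, hs1, hs2⟩ := exists_sections (Γ := Γ) (A := A)
  obtain ⟨F, F1, F2⟩ := exists_map σ s hs1 hs2
  obtain ⟨E, E1, E2⟩ := exists_map (fun v => (σ v).symm) (fun v k => σ v (s v (F k))) (by
    intro v k b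
    show σ v (s v (F (k * of v b))) = σ v (s v (F k)) * b
    rw [F2, hs1, mul_inv_cancel_left, Equiv.apply_symm_apply]) (by
    intro u v h k c
    show σ v (s v (F (k * of u c))) = σ v (s v (F k))
    rw [F2, hs2 u v h])
  have FE : ∀ g, F (E g) = g := by
    intro g
    induction g using induction_right with
    | h1 => rw [E1, F1]
    | hm g v a ih =>
      rw [E2, F2, ih]
      simp only [Equiv.symm_symm, Equiv.symm_apply_apply]
      rw [mul_inv_cancel_left, Equiv.symm_apply_apply, inv_mul_cancel_left]
  have EF : ∀ k, E (F k) = k := by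
    intro k
    induction k using induction_right with
    | h1 => rw [F1, E1]
    | hm k v b ih =>
      rw [F2, E2, ih]
      simp only [Equiv.symm_symm, Equiv.symm_apply_apply]
      rw [mul_inv_cancel_left, Equiv.apply_symm_apply, inv_mul_cancel_left]
  exact ⟨F, E, FE, EF, fun k v b => ⟨_, F2 k v b⟩, fun g v x => ⟨_, E2 g v x⟩⟩

theorem map_Bl {F : GraphProd Γ B → GraphProd Γ A}
    (h : ∀ k v (b : B v), ∃ x : A v, F (k * of v b) = F k * of v x) (k : GraphProd Γ B) (n : ℕ) :
    ∀ w ∈ Bl (gens Set.univ : Set (GraphProd Γ B)) n,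
      (F k)⁻¹ * F (k * w) ∈ Bl (gens Set.univ : Set (GraphProd Γ A)) n := by
  induction n with
  | zero =>
    intro w hw
    rw [Bl_zero, Set.mem_singleton_iff] at hw
    rw [hw, mul_one, inv_mul_cancel]
    exact one_mem_Bl _ _
  | succ n ih =>
    intro w hw
    rcases Bl_succ hw with hw | ⟨a, ha, x, ⟨v, -, b, rfl⟩, rfl⟩
    · exact Bl_mono (Nat.le_succ n) (ih w hw)
    · obtain ⟨x, hx⟩ := h (k * a) v b
      rw [← mul_assoc, hx, ← mul_assoc]
      exact mul_mem_Bl (ih a ha) (gen_mem_Bl ⟨v, trivial, x, rfl⟩)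

/-- The isometry as a quasi-isometry. -/
theorem exists_qid [Finite V] [∀ v, Finite (A v)] (σ : ∀ v, A v ≃ B v) :
    Nonempty (QId (GraphProd Γ A) (GraphProd Γ B) (gens Set.univ) (gens Set.univ)) := by
  obtain ⟨F, E, FE, EF, hF, hE⟩ := exists_isometry (Γ := Γ) σ
  refine ⟨⟨E, 1, 0, ?_, ?_, ?_, gens_finite _, gens_inv _⟩⟩
  · intro x y n h
    have := map_Bl hE x n _ h
    rw [mul_inv_cancel_left] at this
    simpa using this
  · intro x y n h
    have := map_Bl hF (E x) n _ h
    rw [mul_inv_cancel_left, FE, FE] at this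
    simpa using this
  · intro g
    refine ⟨F g, ?_⟩
    rw [EF, inv_mul_cancel]
    exact one_mem_Bl _ _

end two

end GP

end Pool.Agent.KS6_39.RB
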