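import Pool.Agent.KS6_39.RB.Same

set_option autoImplicit false

/-!
# Quasi-isometry: conversions, transitivity, isomorphisms
-/

namespace Pool.Agent.KS6_39.RB

theorem sy_toFinset {G : Type} [Group G] {S : Set G} (hS : S.Finite)
    (hi : ∀ x ∈ S, x⁻¹ ∈ S) : sy hS.toFinset = S := by
  ext x
  constructor
  · rintro (h | h)
    · exact hS.mem_toFinset.mp h
    · have := hi _ (hS.mem_toFinset.mp h)
      rwa [inv_inv] at this
  · intro h
    exact Or.inl (hS.mem_toFinset.mpr h)

/-- from balls to the metric definition -/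
theorem QId.toQuasiIsometric {W G : Type} [Group W] [Group G] {T : Set W} {S : Set G}
    (q : QId W G T S) (hT : Subgroup.closure T = ⊤) (hSf : S.Finite) (hSi : ∀ x ∈ S, x⁻¹ ∈ S)
    (hS : Subgroup.closure S = ⊤) : QuasiIsometric W G := by
  have hT' : Subgroup.closure ((q.finT.toFinset : Finset W) : Set W) = ⊤ := by
    rw [Set.Finite.coe_toFinset]; exact hT
  have hS' : Subgroup.closure ((hSf.toFinset : Finset G) : Set G) = ⊤ := by
    rw [Set.Finite.coe_toFinset]; exact hS
  have kT : ∀ (g : W) (n : ℕ), wordLength q.finT.toFinset g ≤ n ↔ g ∈ Bl T n := by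
    intro g n
    rw [wordLength_le hT', sy_toFinset q.finT q.invT]
  have kS : ∀ (g : G) (n : ℕ), wordLength hSf.toFinset g ≤ n ↔ g ∈ Bl S n := by
    intro g n
    rw [wordLength_le hS', sy_toFinset hSf hSi]
  refine ⟨q.finT.toFinset, hSf.toFinset, hT', hS', q.f, (q.a : ℝ) + 1, (q.c : ℝ), ?_,
    Nat.cast_nonneg _, ?_, ?_, ?_⟩
  · have : (0 : ℝ) ≤ q.a := Nat.cast_nonneg _
    linarith
  · intro x y
    unfold wordDist
    have h2 := q.q2 x y _ ((kS ((q.f x)⁻¹ * q.f y) _).mp le_rfl)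
    have h3 := (kT _ _).mpr h2
    have h4 : (wordLength q.finT.toFinset (x⁻¹ * y) : ℝ) ≤
        q.a * (wordLength hSf.toFinset ((q.f x)⁻¹ * q.f y) : ℝ) + q.c := by exact_mod_cast h3
    have h5 : (0 : ℝ) ≤ q.a := Nat.cast_nonneg _
    have h6 : (0 : ℝ) ≤ (wordLength hSf.toFinset ((q.f x)⁻¹ * q.f y) : ℝ) := Nat.cast_nonneg _
    have h7 : (0 : ℝ) ≤ q.c := Nat.cast_nonneg _
    have hK : (0 : ℝ) < (q.a : ℝ) + 1 := by linarith
    rw [sub_le_iff_le_add, inv_mul_le_iff₀ hK]
    nlinarith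
  · intro x y
    unfold wordDist
    have h2 := q.q1 x y _ ((kT (x⁻¹ * y) _).mp le_rfl)
    have h3 := (kS _ _).mpr h2
    have h4 : (wordLength hSf.toFinset ((q.f x)⁻¹ * q.f y) : ℝ) ≤
        q.a * (wordLength q.finT.toFinset (x⁻¹ * y) : ℝ) + q.c := by exact_mod_cast h3
    have h6 : (0 : ℝ) ≤ (wordLength q.finT.toFinset (x⁻¹ * y) : ℝ) := Nat.cast_nonneg _
    linarith
  · intro z
    obtain ⟨x, hx⟩ := q.q3 z
    refine ⟨x, ?_⟩
    unfold wordDist
    have h3 := (kS _ _).mpr hx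
    exact_mod_cast h3

/-- composition -/
def QId.trans {W G H : Type} [Group W] [Group G] [Group H] {T : Set W} {S : Set G} {R : Set H}
    (q : QId W G T S) (r : QId G H S R) : QId W H T R where
  f := fun x => r.f (q.f x)
  a := r.a * q.a
  c := r.a * q.c + 2 * r.c + q.a * r.c + q.c
  q1 := by
    intro x y n h
    have h1 := r.q1 _ _ _ (q.q1 x y n h)
    refine Bl_mono ?_ h1
    have : r.a * (q.a * n + q.c) = r.a * q.a * n + r.a * q.c := by ring
    omega
  q2 := by
    intro x y n h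
    have h1 := q.q2 x y _ (r.q2 _ _ n h)
    refine Bl_mono ?_ h1
    have : q.a * (r.a * n + r.c) = r.a * q.a * n + q.a * r.c := by ring
    omega
  q3 := by
    intro h
    obtain ⟨g, hg⟩ := r.q3 h
    obtain ⟨x, hx⟩ := q.q3 g
    refine ⟨x, ?_⟩
    have h1 := r.q1 _ _ _ hx
    have h2 := mul_mem_Bl h1 hg
    have e : (r.f (q.f x))⁻¹ * r.f g * ((r.f g)⁻¹ * h) = (r.f (q.f x))⁻¹ * h := by group
    rw [e] at h2
    refine Bl_mono ?_ h2
    omega
  finT := q.finT
  invT := q.invT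

/-- isomorphic groups -/
def QId.ofEquiv {W G : Type} [Group W] [Group G] (e : W ≃* G) {T : Set W} (hT : T.Finite)
    (hi : ∀ x ∈ T, x⁻¹ ∈ T) : QId W G T (e '' T) where
  f := e
  a := 1
  c := 0
  q1 := by
    rintro x y n ⟨l, h1, h2, h3⟩
    refine ⟨l.map e, by rw [List.length_map]; omega, ?_, ?_⟩
    · intro z hz
      rw [List.mem_map] at hz
      obtain ⟨w, hw, rfl⟩ := hz
      exact ⟨w, h2 w hw, rfl⟩
    · rw [← map_inv, ← map_mul, ← h3, map_list_prod]
  q2 := by
    rintro x y n ⟨l, h1, h2, h3⟩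
    refine ⟨l.map e.symm, by rw [List.length_map]; omega, ?_, ?_⟩
    · intro z hz
      rw [List.mem_map] at hz
      obtain ⟨w, hw, rfl⟩ := hz
      obtain ⟨u, hu, rfl⟩ := h2 w hw
      rwa [e.symm_apply_apply]
    · rw [← map_list_prod, h3, map_mul, map_inv, e.symm_apply_apply, e.symm_apply_apply]
  q3 := by
    intro g
    refine ⟨e.symm g, ?_⟩
    rw [e.apply_symm_apply, inv_mul_cancel]
    exact one_mem_Bl _ _
  finT := hT
  invT := hi

theorem QuasiIsometric.trans {G H K : Type} [Group G] [Group H] [Group K]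
    (h1 : QuasiIsometric G H) (h2 : QuasiIsometric H K) : QuasiIsometric G K := by
  obtain ⟨S, T, hS, hT, ⟨q⟩⟩ := h1.toQId
  obtain ⟨S', T', hS', hT', ⟨r⟩⟩ := h2.toQId
  obtain ⟨q'⟩ := q.exists_change (T' := sy S) (S' := sy S') (sy_gen hS) (sy_finite S) (sy_inv S)
    (sy_gen hS) (sy_finite T) (sy_inv T) (sy_gen hT) (sy_finite S') (sy_inv S') (sy_gen hS')
  exact (q'.trans r).toQuasiIsometric (sy_gen hS) (sy_finite T') (sy_inv T') (sy_gen hT')

theorem QuasiIsometric.symm {G H : Type} [Group G] [Group H]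
    (h : QuasiIsometric G H) : QuasiIsometric H G := by
  obtain ⟨S, T, hS, hT, ⟨q⟩⟩ := h.toQId
  obtain ⟨q'⟩ := q.symm (sy_finite T) (sy_inv T)
  exact q'.toQuasiIsometric (sy_gen hT) (sy_finite S) (sy_inv S) (sy_gen hS)

open GP

/-- isomorphic graph products of finite groups -/
theorem quasiIsometric_of_equiv {V V' : Type} [Finite V] {Γ : SimpleGraph V}
    {Γ' : SimpleGraph V'} {A : V → Type} {A' : V' → Type} [∀ v, Group (A v)] [∀ v, Group (A' v)]
    [∀ v, Finite (A v)] (e : GraphProd Γ A ≃* GraphProd Γ' A') :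
    QuasiIsometric (GraphProd Γ A) (GraphProd Γ' A') := by
  have hf : (gens Set.univ : Set (GraphProd Γ A)).Finite := gens_finite _
  refine (QId.ofEquiv e hf (gens_inv _)).toQuasiIsometric closure_gens_univ (hf.image _) ?_ ?_
  · rintro _ ⟨x, hx, rfl⟩
    exact ⟨x⁻¹, gens_inv _ x hx, map_inv _ _⟩
  · have h1 := congrArg (Subgroup.map e.toMonoidHom) (closure_gens_univ (Γ := Γ) (A := A))
    rw [MonoidHom.map_closure, ← MonoidHom.range_eq_map,
      MonoidHom.range_eq_top.mpr e.surjective] at h1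
    exact h1

/-- Graph products over the same finite graph with vertex groups of the same finite orders are
quasi-isometric. -/
theorem quasiIsometric_of_card {V : Type} [Finite V] {Γ : SimpleGraph V}
    {A B : V → Type} [∀ v, Group (A v)] [∀ v, Group (B v)]
    [∀ v, Finite (A v)] [∀ v, Finite (B v)] (h : ∀ v, Nat.card (A v) = Nat.card (B v)) :
    QuasiIsometric (GraphProd Γ A) (GraphProd Γ B) := by
  obtain ⟨q⟩ := exists_qid (Γ := Γ) (A := A) (B := B)
    (fun v => Classical.choice (Finite.card_eq.mp (h v)))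
  exact q.toQuasiIsometric closure_gens_univ (gens_finite _) (gens_inv _) closure_gens_univ

end Pool.Agent.KS6_39.RB
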